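import Pool.Agent.Q227.PC.Defs

/-!
# Averages over pairs of sets of given sizes
-/

set_option autoImplicit false

namespace Pool.Agent.Q227.PC

open Finset

/-- The average of `(1 + y) ^ |T ∩ T'|` over the sets `T, T'` of sizes `t, t'` in a set of
size `N`. -/
noncomputable def Phi (N t t' : ℕ) (y : ℝ) : ℝ :=
  ∑ j ∈ range (t + 1), (t.choose j : ℝ) * (t'.choose j) / (N.choose j) * y ^ j

theorem choose_mul_pow_le {N t : ℕ} (h : t ≤ N) (j : ℕ) :
    t.choose j * N ^ j ≤ N.choose j * t ^ j := by
  induction j with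
  | zero => simp
  | succ j ih =>
    rcases Nat.lt_or_ge t (j + 1) with h1 | h1
    · rw [Nat.choose_eq_zero_of_lt h1, zero_mul]
      exact Nat.zero_le _
    · have h2 := Nat.choose_succ_right_eq t j
      have h3 := Nat.choose_succ_right_eq N j
      have h4 : N * (t - j) ≤ t * (N - j) := by
        obtain ⟨a, rfl⟩ := Nat.exists_eq_add_of_le (show j ≤ t by omega)
        obtain ⟨c, rfl⟩ := Nat.exists_eq_add_of_le h
        rw [show j + a - j = a by omega, show j + a + c - j = a + c by omega]
        nlinarith [Nat.zero_le (j * c), Nat.zero_le (a * c)]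
      refine Nat.le_of_mul_le_mul_right (c := j + 1) ?_ (Nat.succ_pos j)
      calc t.choose (j + 1) * N ^ (j + 1) * (j + 1)
          = (t.choose (j + 1) * (j + 1)) * N ^ (j + 1) := by ring
        _ = (t.choose j * N ^ j) * (N * (t - j)) := by rw [h2]; ring
        _ ≤ (N.choose j * t ^ j) * (t * (N - j)) := Nat.mul_le_mul ih h4
        _ = (N.choose j * (N - j)) * t ^ (j + 1) := by ring
        _ = (N.choose (j + 1) * (j + 1)) * t ^ (j + 1) := by rw [h3]
        _ = N.choose (j + 1) * t ^ (j + 1) * (j + 1) := by ring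

theorem term_le {N t t' : ℕ} {y : ℝ} (hy : 0 ≤ y) (hN : 0 < N) (ht' : t' ≤ N) (ht : t ≤ N)
    {j : ℕ} (hj : j ≤ t) :
    (t.choose j : ℝ) * (t'.choose j) / (N.choose j) * y ^ j ≤ ((t : ℝ) * t' * y / N) ^ j := by
  have h1 : (0 : ℝ) < N.choose j := by exact_mod_cast Nat.choose_pos (hj.trans ht)
  have h2 : (0 : ℝ) < N := by exact_mod_cast hN
  have h3 : (t'.choose j : ℝ) * (N : ℝ) ^ j ≤ (N.choose j : ℝ) * (t' : ℝ) ^ j := by
    exact_mod_cast choose_mul_pow_le ht' j
  have h4 : (t.choose j : ℝ) ≤ (t : ℝ) ^ j := by exact_mod_cast Nat.choose_le_pow t j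
  have h5 : (t'.choose j : ℝ) / (N.choose j) ≤ (t' : ℝ) ^ j / (N : ℝ) ^ j := by
    rw [div_le_div_iff₀ h1 (by positivity)]
    linarith
  calc (t.choose j : ℝ) * (t'.choose j) / (N.choose j) * y ^ j
      = (t.choose j : ℝ) * ((t'.choose j : ℝ) / (N.choose j)) * y ^ j := by ring
    _ ≤ (t : ℝ) ^ j * ((t' : ℝ) ^ j / (N : ℝ) ^ j) * y ^ j := by
        refine mul_le_mul_of_nonneg_right ?_ (by positivity)
        exact mul_le_mul h4 h5 (by positivity) (by positivity)
    _ = ((t : ℝ) * t' * y / N) ^ j := by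
        rw [div_pow, mul_pow, mul_pow]
        ring

theorem Phi_le {N t t' : ℕ} {y : ℝ} (hy : 0 ≤ y) (hN : 0 < N) (ht : t ≤ N) (ht' : t' ≤ N)
    (hz : (t : ℝ) * t' * y / N ≤ 1 / 2) :
    Phi N t t' y ≤ 1 + (t : ℝ) * t' * y / N + 2 * ((t : ℝ) * t' * y / N) ^ 2 := by
  set z : ℝ := (t : ℝ) * t' * y / N with hzdef
  have hz0 : 0 ≤ z := by positivity
  have h1 : Phi N t t' y ≤ ∑ j ∈ range (t + 1), z ^ j := by
    refine Finset.sum_le_sum fun j hj => ?_
    exact term_le hy hN ht' ht (by rw [mem_range] at hj; omega)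
  have h2 : ∀ m : ℕ, ∑ j ∈ range m, z ^ j ≤ 1 + z + 2 * z ^ 2 - 2 * z ^ 2 * z ^ (m - 2) ∨ m < 2 := by
    intro m
    induction m with
    | zero => right; omega
    | succ m ih =>
      rcases Nat.lt_or_ge (m + 1) 2 with h3 | h3
      · exact Or.inr h3
      · left
        rcases Nat.lt_or_ge m 2 with h4 | h4
        · obtain rfl : m = 1 := by omega
          simp [Finset.sum_range_succ]
        · rcases ih with h5 | h5
          · rw [Finset.sum_range_succ]
            obtain ⟨i, rfl⟩ := Nat.exists_eq_add_of_le h4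
            rw [show 2 + i - 2 = i by omega] at h5
            rw [show 2 + i + 1 - 2 = i + 1 by omega]
            have h6 : z ^ (2 + i) = z ^ 2 * z ^ i := by ring
            have h7 : z ^ (i + 1) = z * z ^ i := by ring
            have h8 : 0 ≤ z ^ 2 * z ^ i := by positivity
            rw [h6, h7]
            nlinarith
          · omega
  rcases h2 (t + 1) with h3 | h3
  · have h4 : 0 ≤ 2 * z ^ 2 * z ^ (t + 1 - 2) := by positivity
    linarith
  · obtain rfl : t = 0 := by omega
    have h4 : ∑ j ∈ range (0 + 1), z ^ j = 1 := by simp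
    nlinarith [sq_nonneg z]

theorem le_Phi {N t t' : ℕ} {y : ℝ} (hy : 0 ≤ y) (ht : 1 ≤ t) :
    1 + (t : ℝ) * t' * y / N ≤ Phi N t t' y := by
  have h1 : ∑ j ∈ range 2, (t.choose j : ℝ) * (t'.choose j) / (N.choose j) * y ^ j ≤
      Phi N t t' y := by
    refine Finset.sum_le_sum_of_subset_of_nonneg ?_ fun i _ _ => by positivity
    intro j hj
    rw [mem_range] at hj ⊢
    omega
  refine le_trans (le_of_eq ?_) h1
  simp [Finset.sum_range_succ]
  ring

/-- The number of sets of size `t'` which contain a given set. -/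
theorem card_superset {α : Type} [DecidableEq α] {V A : Finset α} (hA : A ⊆ V) {t' : ℕ}
    (h : A.card ≤ t') :
    ((V.powersetCard t').filter fun T => A ⊆ T).card =
      (V.card - A.card).choose (t' - A.card) := by
  have h1 : (V \ A).card = V.card - A.card := Finset.card_sdiff_of_subset hA
  rw [← h1, ← Finset.card_powersetCard]
  refine Finset.card_bij' (fun T _ => T \ A) (fun T _ => T ∪ A) ?_ ?_ ?_ ?_
  · intro T hT
    rw [mem_filter, mem_powersetCard] at hT
    rw [mem_powersetCard]
    refine ⟨Finset.sdiff_subset_sdiff hT.1.1 (le_refl A), ?_⟩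
    rw [Finset.card_sdiff_of_subset hT.2, hT.1.2]
  · intro T hT
    rw [mem_powersetCard] at hT
    rw [mem_filter, mem_powersetCard]
    refine ⟨⟨Finset.union_subset (hT.1.trans sdiff_subset) hA, ?_⟩, subset_union_right⟩
    rw [Finset.card_union_of_disjoint, hT.2]
    · omega
    · exact Finset.disjoint_of_subset_left hT.1 sdiff_disjoint
  · intro T hT
    rw [mem_filter] at hT
    exact Finset.sdiff_union_of_subset hT.2
  · intro T hT
    rw [mem_powersetCard] at hT
    show (T ∪ A) \ A = T
    rw [Finset.union_sdiff_right]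
    exact Finset.sdiff_eq_self_of_disjoint (Finset.disjoint_of_subset_left hT.1 sdiff_disjoint)

theorem sum_inter {α : Type} [DecidableEq α] (V : Finset α) (t t' : ℕ) (y : ℝ) :
    ∑ T ∈ V.powersetCard t, ∑ T' ∈ V.powersetCard t', (1 + y) ^ (T ∩ T').card =
      (V.card.choose t : ℝ) * (V.card.choose t' : ℝ) * Phi V.card t t' y := by
  have h1 : ∀ T ∈ V.powersetCard t, ∑ T' ∈ V.powersetCard t', (1 + y) ^ (T ∩ T').card =
      (V.card.choose t' : ℝ) * Phi V.card t t' y := by
    intro T hT
    rw [mem_powersetCard] at hT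
    have h2 : ∀ T' : Finset α, (1 + y) ^ (T ∩ T').card =
        ∑ A ∈ T.powerset, if A ⊆ T' then y ^ A.card else 0 := by
      intro T'
      rw [← Finset.sum_filter]
      have h3 : T.powerset.filter (fun A => A ⊆ T') = (T ∩ T').powerset := by
        ext A
        rw [mem_filter, mem_powerset, mem_powerset, Finset.subset_inter_iff]
      rw [h3]
      have h4 := Finset.sum_pow_mul_eq_add_pow y 1 (T ∩ T')
      simp only [one_pow, mul_one] at h4
      rw [h4, add_comm]
    rw [Finset.sum_congr rfl fun T' _ => h2 T', Finset.sum_comm]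
    have h5 : ∀ A ∈ T.powerset, ∑ T' ∈ V.powersetCard t', (if A ⊆ T' then y ^ A.card else 0) =
        y ^ A.card * ((V.card.choose t' : ℝ) * ((t'.choose A.card : ℝ) / V.card.choose A.card)) := by
      intro A hA
      rw [mem_powerset] at hA
      rw [← Finset.sum_filter, Finset.sum_const, nsmul_eq_mul, mul_comm]
      congr 1
      have hcV : A.card ≤ V.card := Finset.card_le_card (hA.trans hT.1)
      rcases Nat.lt_or_ge t' A.card with h6 | h6
      · rw [Nat.choose_eq_zero_of_lt h6]
        simp only [Nat.cast_zero, zero_div, mul_zero, Nat.cast_eq_zero, card_eq_zero]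
        rw [Finset.filter_eq_empty_iff]
        intro T' hT' h7
        rw [mem_powersetCard] at hT'
        have := Finset.card_le_card h7
        omega
      · rw [card_superset (hA.trans hT.1) h6]
        have h7 := Nat.choose_mul (n := V.card) h6
        have h8 : (0 : ℝ) < V.card.choose A.card := by exact_mod_cast Nat.choose_pos hcV
        rw [← mul_div_assoc, eq_div_iff h8.ne']
        have h9 : (V.card.choose t' : ℝ) * (t'.choose A.card : ℝ) =
          (V.card.choose A.card : ℝ) * ((V.card - A.card).choose (t' - A.card) : ℝ) := by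
          exact_mod_cast h7
        rw [h9]
        ring
    rw [Finset.sum_congr rfl h5, Finset.sum_powerset_apply_card
      (fun j => y ^ j * ((V.card.choose t' : ℝ) * ((t'.choose j : ℝ) / V.card.choose j)))]
    rw [Phi, Finset.mul_sum, hT.2]
    refine Finset.sum_congr rfl fun j _ => ?_
    rw [nsmul_eq_mul]
    ring
  rw [Finset.sum_congr rfl h1, Finset.sum_const, Finset.card_powersetCard, nsmul_eq_mul]
  ring

theorem Phi_nonneg {N t t' : ℕ} {y : ℝ} (hy : 0 ≤ y) : 0 ≤ Phi N t t' y :=
  Finset.sum_nonneg fun _ _ => by positivity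

end Pool.Agent.Q227.PC
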