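import Mathlib

/-!
# Low-degree polynomials and the planted clique problem
-/

set_option autoImplicit false

namespace Pool.Agent.Q227.PC

open Filter Asymptotics

/-- The pairs of distinct vertices. -/
abbrev Edge (n : ℕ) := {e : Sym2 (Fin n) // ¬ e.IsDiag}

/-- A graph on `n` vertices, by the indicators of its edges. -/
abbrev Gr (n : ℕ) := Edge n → Bool

/-- The mean over the uniform random graph, `E_Q`. -/
noncomputable def EQ (n : ℕ) (F : Gr n → ℝ) : ℝ := (∑ Y : Gr n, F Y) / 2 ^ Fintype.card (Edge n)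

/-- The union of the graph `Y` with the complete graph on `S`. -/
def plant {n : ℕ} (S : Finset (Fin n)) (Y : Gr n) : Gr n :=
  fun e => Y e || decide (∀ v ∈ e.1, v ∈ S)

/-- The mean of a function of `(S, Y)` under the planted distribution `E_P`: the vertices are in
`S` independently with probability `p`. -/
noncomputable def EP (n : ℕ) (p : ℝ) (F : Finset (Fin n) → Gr n → ℝ) : ℝ :=
  ∑ S : Finset (Fin n), p ^ S.card * (1 - p) ^ (n - S.card) * EQ n fun Y => F S (plant S Y)

/-- The value of a polynomial at (the edge indicators of) a graph. -/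
noncomputable def ev {n : ℕ} (f : MvPolynomial (Edge n) ℝ) (Y : Gr n) : ℝ :=
  MvPolynomial.eval (fun e => if Y e then (1 : ℝ) else 0) f

noncomputable def meanQ {n : ℕ} (f : MvPolynomial (Edge n) ℝ) : ℝ := EQ n (ev f)

noncomputable def varQ {n : ℕ} (f : MvPolynomial (Edge n) ℝ) : ℝ :=
  EQ n fun Y => (ev f Y - meanQ f) ^ 2

noncomputable def meanP {n : ℕ} (p : ℝ) (f : MvPolynomial (Edge n) ℝ) : ℝ :=
  EP n p fun _ Y => ev f Y

noncomputable def varP {n : ℕ} (p : ℝ) (f : MvPolynomial (Edge n) ℝ) : ℝ :=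
  EP n p fun _ Y => (ev f Y - meanP p f) ^ 2

/-- Some polynomials of degree at most `D n` strongly separate the planted distributions (with
`p = k / n`) from the uniform ones. -/
def StronglySeparates (k : ℕ → ℝ) (D : ℕ → ℕ) : Prop :=
  ∃ f : ∀ n, MvPolynomial (Edge n) ℝ, (∀ n, (f n).totalDegree ≤ D n) ∧
    (fun n => Real.sqrt (max (varP (k n / n) (f n)) (varQ (f n)))) =o[atTop]
      fun n => meanP (k n / n) (f n) - meanQ (f n)

/-- The indicator of the event that the first vertex is in `S`. -/
noncomputable def ind {n : ℕ} (S : Finset (Fin n)) : ℝ :=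
  if ∃ h : 0 < n, (⟨0, h⟩ : Fin n) ∈ S then 1 else 0

/-- The minimum mean square error of degree `D` for the indicator of the first vertex. -/
noncomputable def MMSE (n : ℕ) (k : ℝ) (D : ℕ) : ℝ :=
  ⨅ f : {f : MvPolynomial (Edge n) ℝ // f.totalDegree ≤ D},
    EP n (k / n) fun S Y => (ev f.1 Y - ind S) ^ 2

/-- Degree `D` succeeds. -/
def Succeeds (k : ℕ → ℝ) (D : ℕ → ℕ) : Prop :=
  StronglySeparates k D ∧ (fun n => MMSE n (k n) (D n)) =o[atTop] fun n => 1 / (n : ℝ)

end Pool.Agent.Q227.PC
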