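import Pool.Agent.Q227.PC.Defs

/-!
# Expectations of clique indicators
-/

set_option autoImplicit false
set_option linter.unusedSectionVars false

namespace Pool.Agent.Q227.PC

open Finset

variable {n : ℕ}

/-- The edges inside `T`. -/
noncomputable def E (T : Finset (Fin n)) : Finset (Edge n) :=
  univ.filter fun e => ∀ v ∈ e.1, v ∈ T

theorem mem_E {T : Finset (Fin n)} {e : Edge n} : e ∈ E T ↔ ∀ v ∈ e.1, v ∈ T := by
  simp [E]

/-- The indicator that all edges of `A` are present. -/
noncomputable def I (A : Finset (Edge n)) (Y : Gr n) : ℝ := if ∀ e ∈ A, Y e = true then 1 else 0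

theorem I_mul (A B : Finset (Edge n)) (Y : Gr n) : I A Y * I B Y = I (A ∪ B) Y := by
  unfold I
  by_cases h1 : ∀ e ∈ A, Y e = true
  · by_cases h2 : ∀ e ∈ B, Y e = true
    · rw [if_pos h1, if_pos h2, if_pos, mul_one]
      intro e he
      rcases mem_union.1 he with h | h
      · exact h1 e h
      · exact h2 e h
    · rw [if_neg h2, mul_zero, if_neg]
      exact fun (h : ∀ e ∈ A ∪ B, Y e = true) => h2 fun e he => h e (mem_union_right _ he)
  · rw [if_neg h1, zero_mul, if_neg]
    exact fun (h : ∀ e ∈ A ∪ B, Y e = true) => h1 fun e he => h e (mem_union_left _ he)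

theorem I_plant (A : Finset (Edge n)) (S : Finset (Fin n)) (Y : Gr n) :
    I A (plant S Y) = I (A \ E S) Y := by
  unfold I
  congr 1
  simp only [plant, Bool.or_eq_true, decide_eq_true_eq, mem_sdiff, mem_E, eq_iff_iff]
  constructor
  · rintro h e ⟨he, hS⟩
    rcases h e he with h1 | h1
    · exact h1
    · exact absurd h1 hS
  · intro h e he
    by_cases hS : ∀ v ∈ e.1, v ∈ S
    · exact Or.inr hS
    · exact Or.inl (h e ⟨he, hS⟩)

theorem EQ_I (A : Finset (Edge n)) : EQ n (I A) = (1 / 2) ^ A.card := by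
  classical
  have h1 : ∀ Y : Gr n, I A Y = ∏ e : Edge n, (if e ∈ A then (if Y e = true then (1 : ℝ) else 0)
      else 1) := by
    intro Y
    unfold I
    rw [Finset.prod_ite, Finset.prod_const_one, mul_one, Finset.prod_boole]
    simp
  have h2 : ∑ Y : Gr n, I A Y = ∏ e : Edge n, ∑ b : Bool,
      (if e ∈ A then (if b = true then (1 : ℝ) else 0) else 1) := by
    rw [Finset.prod_univ_sum]
    rw [Fintype.piFinset_univ]
    exact Finset.sum_congr rfl fun Y _ => h1 Y
  have h3 : ∀ e : Edge n, ∑ b : Bool, (if e ∈ A then (if b = true then (1 : ℝ) else 0) else 1) =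
      if e ∈ A then 1 else 2 := by
    intro e
    by_cases he : e ∈ A <;> simp [he]
  have h4 : (∏ e : Edge n, (if e ∈ A then (1 : ℝ) else 2)) = 2 ^ (univ \ A).card := by
    rw [Finset.prod_ite, Finset.prod_const_one, one_mul, Finset.prod_const]
    congr 2
    ext e
    simp
  rw [EQ, h2, Finset.prod_congr rfl fun e _ => h3 e, h4]
  have h5 : (univ \ A).card + A.card = Fintype.card (Edge n) := by
    rw [Finset.card_sdiff_add_card_eq_card (subset_univ A), Finset.card_univ]
  rw [← h5, pow_add, one_div, inv_pow]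
  field_simp

theorem EQ_add (F G : Gr n → ℝ) : EQ n (fun Y => F Y + G Y) = EQ n F + EQ n G := by
  simp only [EQ, Finset.sum_add_distrib, add_div]

theorem EQ_smul (c : ℝ) (F : Gr n → ℝ) : EQ n (fun Y => c * F Y) = c * EQ n F := by
  simp only [EQ, ← Finset.mul_sum, mul_div_assoc]

theorem EQ_sum {ι : Type} (s : Finset ι) (F : ι → Gr n → ℝ) :
    EQ n (fun Y => ∑ i ∈ s, F i Y) = ∑ i ∈ s, EQ n (F i) := by
  simp only [EQ]
  rw [Finset.sum_comm, Finset.sum_div]

theorem EQ_mono {F G : Gr n → ℝ} (h : ∀ Y, F Y ≤ G Y) : EQ n F ≤ EQ n G := by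
  unfold EQ
  exact div_le_div_of_nonneg_right (Finset.sum_le_sum fun Y _ => h Y) (by positivity)

/-- The weight of `S`. -/
noncomputable def w (n : ℕ) (p : ℝ) (S : Finset (Fin n)) : ℝ := p ^ S.card * (1 - p) ^ (n - S.card)

theorem w_nonneg {p : ℝ} (h0 : 0 ≤ p) (h1 : p ≤ 1) (S : Finset (Fin n)) : 0 ≤ w n p S := by
  have : 0 ≤ 1 - p := by linarith
  unfold w
  positivity

theorem EP_eq (p : ℝ) (F : Finset (Fin n) → Gr n → ℝ) :
    EP n p F = ∑ S : Finset (Fin n), w n p S * EQ n fun Y => F S (plant S Y) := rfl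

/-- Product formula for the random set. -/
theorem sum_w_prod (p : ℝ) (f g : Fin n → ℝ) :
    ∑ S : Finset (Fin n), w n p S * ((∏ v ∈ S, f v) * ∏ v ∈ Sᶜ, g v) =
      ∏ v : Fin n, (p * f v + (1 - p) * g v) := by
  rw [Finset.prod_add, Finset.powerset_univ]
  refine Finset.sum_congr rfl fun S _ => ?_
  rw [Finset.prod_mul_distrib, Finset.prod_mul_distrib, Finset.prod_const, Finset.prod_const,
    ← Finset.compl_eq_univ_sdiff, Finset.card_compl, Fintype.card_fin, w]
  ring

/-! ### The number of edges outside of `S` -/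

/-- The edge with the given ends. -/
def mkE {v t : Fin n} (h : v ≠ t) : Edge n := ⟨s(v, t), by simpa using h⟩

theorem edge_bound {ρ : ℕ} {T T' S : Finset (Fin n)} (hT : 2 * ρ + 1 ≤ T.card)
    (hT' : 2 * ρ + 1 ≤ T'.card) :
    ρ * ((T ∪ T') \ S).card ≤ ((E T ∪ E T') \ E S).card := by
  classical
  have h := Finset.sum_card_bipartiteAbove_eq_sum_card_bipartiteBelow
    (s := (T ∪ T') \ S) (t := (E T ∪ E T') \ E S) (fun (v : Fin n) (e : Edge n) => v ∈ e.1)
  have h1 : ∀ v ∈ (T ∪ T') \ S, 2 * ρ ≤
      (Finset.bipartiteAbove (fun (v : Fin n) (e : Edge n) => v ∈ e.1)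
        ((E T ∪ E T') \ E S) v).card := by
    intro v hv
    rw [mem_sdiff, mem_union] at hv
    have key : ∀ R : Finset (Fin n), 2 * ρ + 1 ≤ R.card → v ∈ R → E R ⊆ E T ∪ E T' →
        2 * ρ ≤ (Finset.bipartiteAbove (fun (v : Fin n) (e : Edge n) => v ∈ e.1)
          ((E T ∪ E T') \ E S) v).card := by
      intro R hR hvR hsub
      have h2 : (R.erase v).card = R.card - 1 := Finset.card_erase_of_mem hvR
      have h4 : ((R.erase v).attach.image fun t =>
          mkE (v := v) (t := t.1) (Finset.ne_of_mem_erase t.2).symm).card =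
          (R.erase v).card := by
        rw [Finset.card_image_of_injective, Finset.card_attach]
        intro t1 t2 h5
        have h6 := congrArg Subtype.val h5
        simp only [mkE, Sym2.congr_right] at h6
        exact Subtype.ext h6
      have h3 : (R.erase v).card ≤ (Finset.bipartiteAbove
          (fun (v : Fin n) (e : Edge n) => v ∈ e.1) ((E T ∪ E T') \ E S) v).card := by
        rw [← h4]
        refine Finset.card_le_card fun e he => ?_
        obtain ⟨t, -, rfl⟩ := mem_image.1 he
        rw [Finset.mem_bipartiteAbove, mem_sdiff, mem_E]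
        refine ⟨⟨hsub (mem_E.2 fun u hu => ?_), fun h5 => hv.2 (h5 v ?_)⟩, ?_⟩
        · rcases Sym2.mem_iff.1 hu with rfl | rfl
          · exact hvR
          · exact Finset.mem_of_mem_erase t.2
        · exact Sym2.mem_mk_left _ _
        · exact Sym2.mem_mk_left _ _
      omega
    rcases hv.1 with h4 | h4
    · exact key T hT h4 subset_union_left
    · exact key T' hT' h4 subset_union_right
  have h2 : ∀ e ∈ (E T ∪ E T') \ E S,
      (Finset.bipartiteBelow (fun (v : Fin n) (e : Edge n) => v ∈ e.1) ((T ∪ T') \ S) e).card ≤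
        2 := by
    rintro ⟨e, he⟩ _
    induction e using Sym2.ind with
    | _ x y =>
      refine (Finset.card_le_card (t := {x, y}) fun v hv => ?_).trans Finset.card_le_two
      rw [Finset.mem_bipartiteBelow] at hv
      simpa using hv.2
  have h3 : ((T ∪ T') \ S).card * (2 * ρ) ≤ ((E T ∪ E T') \ E S).card * 2 := by
    calc ((T ∪ T') \ S).card * (2 * ρ) = ∑ _v ∈ (T ∪ T') \ S, 2 * ρ := by
          rw [Finset.sum_const, smul_eq_mul]
      _ ≤ _ := Finset.sum_le_sum h1
      _ = _ := h
      _ ≤ ∑ _e ∈ (E T ∪ E T') \ E S, 2 := Finset.sum_le_sum h2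
      _ = _ := by rw [Finset.sum_const, smul_eq_mul]
  nlinarith

/-! ### The moments of products of clique indicators -/

/-- The mean of the product of the clique indicators given `S`. -/
theorem EQ_II (T T' S : Finset (Fin n)) :
    EQ n (fun Y => I (E T) (plant S Y) * I (E T') (plant S Y)) =
      (1 / 2) ^ ((E T ∪ E T') \ E S).card := by
  rw [← EQ_I]
  congr 1
  funext Y
  rw [I_mul, I_plant]

theorem EQ_II_le {ρ : ℕ} {T T' S : Finset (Fin n)} (hT : 2 * ρ + 1 ≤ T.card)
    (hT' : 2 * ρ + 1 ≤ T'.card) :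
    EQ n (fun Y => I (E T) (plant S Y) * I (E T') (plant S Y)) ≤
      ((1 / 2) ^ ρ) ^ ((T ∪ T') \ S).card := by
  rw [EQ_II, ← pow_mul]
  exact pow_le_pow_of_le_one (by norm_num) (by norm_num) (edge_bound hT hT')

theorem EQ_II_nonneg (T T' S : Finset (Fin n)) :
    0 ≤ EQ n (fun Y => I (E T) (plant S Y) * I (E T') (plant S Y)) := by
  rw [EQ_II]
  positivity

theorem EQ_II_sub {T T' S : Finset (Fin n)} (h : T ∪ T' ⊆ S) :
    EQ n (fun Y => I (E T) (plant S Y) * I (E T') (plant S Y)) = 1 := by
  rw [EQ_II, Finset.card_eq_zero.2, pow_zero]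
  rw [Finset.sdiff_eq_empty_iff_subset]
  intro e he
  rw [mem_E]
  intro v hv
  rcases mem_union.1 he with h1 | h1
  · exact h (mem_union_left _ (mem_E.1 h1 v hv))
  · exact h (mem_union_right _ (mem_E.1 h1 v hv))

/-- Sums of products over the random set with a factor which depends on the vertex `o`. -/
theorem sum_w_theta (p θ : ℝ) (U : Finset (Fin n)) :
    ∑ S : Finset (Fin n), w n p S * θ ^ (U \ S).card = (p + (1 - p) * θ) ^ U.card := by
  have h := sum_w_prod (n := n) p (fun _ => 1) (fun v => if v ∈ U then θ else 1)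
  have h1 : ∀ S : Finset (Fin n), (∏ v ∈ Sᶜ, if v ∈ U then θ else 1) = θ ^ (U \ S).card := by
    intro S
    rw [Finset.prod_ite, Finset.prod_const_one, mul_one, Finset.prod_const]
    congr 2
    ext v
    simp [and_comm]
  simp only [Finset.prod_const_one, one_mul, h1, mul_one] at h
  rw [h]
  have h2 : ∀ v : Fin n, p + (1 - p) * (if v ∈ U then θ else 1) =
      if v ∈ U then p + (1 - p) * θ else 1 := by
    intro v
    split_ifs <;> ring
  rw [Finset.prod_congr rfl fun v _ => h2 v, Finset.prod_ite, Finset.prod_const_one, mul_one,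
    Finset.prod_const]
  congr 2
  ext v
  simp

/-- The same with the condition that `o` is in `S`. -/
theorem sum_w_theta_in (p θ : ℝ) (U : Finset (Fin n)) {o : Fin n} (ho : o ∈ U) :
    ∑ S : Finset (Fin n), w n p S * ((if o ∈ S then 1 else 0) * θ ^ (U \ S).card) =
      p * (p + (1 - p) * θ) ^ (U.card - 1) := by
  have h := sum_w_prod (n := n) p (fun _ => 1) (fun v => if v ∈ U then
    (if v = o then 0 else θ) else 1)
  have h1 : ∀ S : Finset (Fin n), (∏ v ∈ Sᶜ, if v ∈ U then (if v = o then 0 else θ) else 1) =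
      (if o ∈ S then 1 else 0) * θ ^ (U \ S).card := by
    intro S
    by_cases hS : o ∈ S
    · rw [if_pos hS, one_mul]
      rw [Finset.prod_congr rfl (g := fun v => if v ∈ U then θ else 1) fun v hv => ?_]
      · rw [Finset.prod_ite, Finset.prod_const_one, mul_one, Finset.prod_const]
        congr 2
        ext v
        simp [and_comm]
      · have h5 : v ≠ o := by
          rintro rfl
          exact (Finset.mem_compl.1 hv) hS
        simp only [if_neg h5]
    · rw [if_neg hS, zero_mul]
      refine Finset.prod_eq_zero (Finset.mem_compl.2 hS) ?_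
      simp [ho]
  simp only [Finset.prod_const_one, one_mul, h1, mul_one] at h
  rw [h]
  rw [← Finset.mul_prod_erase _ _ (mem_univ o)]
  have h2 : ∀ v ∈ (univ : Finset (Fin n)).erase o, p + (1 - p) * (if v ∈ U then
      (if v = o then 0 else θ) else 1) = if v ∈ U then p + (1 - p) * θ else 1 := by
    intro v hv
    rw [if_neg (Finset.ne_of_mem_erase hv)]
    split_ifs <;> ring
  rw [Finset.prod_congr rfl h2, Finset.prod_ite, Finset.prod_const_one, mul_one,
    Finset.prod_const]
  have h3 : ((univ : Finset (Fin n)).erase o).filter (fun v => v ∈ U) = U.erase o := by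
    ext v
    simp
  rw [h3, Finset.card_erase_of_mem ho]
  simp [ho]

end Pool.Agent.Q227.PC
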