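import Pool.Agent.Q227.PC.Mse

/-!
# Degree `O(log² n)` succeeds
-/

set_option autoImplicit false

namespace Pool.Agent.Q227.PC

open Finset Filter Asymptotics

/-- Half of the size of the cliques. -/
def rho (n : ℕ) : ℕ := 4 * (Nat.log 2 n + 1)

theorem rho_ge (n : ℕ) : 4 ≤ rho n := by
  unfold rho
  omega

theorem theta_le {n : ℕ} (hn : 0 < n) : ((1 : ℝ) / 2) ^ rho n ≤ 1 / (n : ℝ) ^ 4 := by
  have h1 : n ≤ 2 ^ (Nat.log 2 n + 1) := (Nat.lt_pow_succ_log_self (by norm_num) n).le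
  have h2 : (n : ℝ) ≤ 2 ^ (Nat.log 2 n + 1) := by exact_mod_cast h1
  have h0 : (0 : ℝ) < n := by exact_mod_cast hn
  have h3 : (n : ℝ) ^ 4 ≤ 2 ^ rho n := by
    rw [rho, mul_comm, pow_mul]
    exact pow_le_pow_left₀ h0.le h2 4
  rw [one_div_pow]
  exact one_div_le_one_div_of_le (by positivity) h3

theorem one_le_log {n : ℕ} (hn : 3 ≤ n) : 1 ≤ Real.log n := by
  rw [Real.le_log_iff_exp_le (by positivity)]
  have h1 := Real.exp_one_lt_d9
  have h2 : (3 : ℝ) ≤ n := by exact_mod_cast hn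
  linarith

theorem rho_le {n : ℕ} (hn : 3 ≤ n) : (rho n : ℝ) ≤ 10 * Real.log n := by
  have h1 : 2 ^ Nat.log 2 n ≤ n := Nat.pow_log_le_self 2 (by omega)
  have h2 : (2 : ℝ) ^ Nat.log 2 n ≤ n := by exact_mod_cast h1
  have h3 := Real.log_le_log (by positivity) h2
  rw [Real.log_pow] at h3
  have h4 := Real.log_two_gt_d9
  have h5 := one_le_log hn
  have h6 : (0 : ℝ) ≤ (Nat.log 2 n : ℝ) := by positivity
  have h7 : (Nat.log 2 n : ℝ) * 0.69 ≤ Real.log n := by nlinarith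
  unfold rho
  push_cast
  linarith

section

variable {n : ℕ} {k : ℝ}

theorem basics (hn : 3 ≤ n) (hkn : k ≤ n) (hq : (rho n : ℝ) ^ 4 ≤ k * (1 / 100)) :
    100 ≤ k ∧ 0 < k / n ∧ k / n ≤ 1 ∧ 0 ≤ 1 / (k / n) - 1 ∧ 1 / (k / n) - 1 ≤ n / k ∧
      (1 / 2) ^ rho n / (k / n) ≤ 1 / (n ^ 3 * k) ∧ 100 * (rho n) ^ 4 ≤ n := by
  have h1 : (4 : ℝ) ≤ rho n := by exact_mod_cast rho_ge n
  have h2 : (4 : ℝ) ^ 4 ≤ (rho n : ℝ) ^ 4 := pow_le_pow_left₀ (by norm_num) h1 4
  have hk : 100 ≤ k := by linarith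
  have hk0 : 0 < k := by linarith
  have hn0 : (0 : ℝ) < n := by linarith
  refine ⟨hk, by positivity, ?_, ?_, ?_, ?_, ?_⟩
  · rw [div_le_one hn0]
    exact hkn
  · rw [one_div_div, sub_nonneg, le_div_iff₀ hk0]
    linarith
  · rw [one_div_div]
    linarith
  · have h3 := theta_le (n := n) (by omega)
    rw [div_div_eq_mul_div, div_le_div_iff₀ hk0 (by positivity)]
    have h4 : (1 / 2) ^ rho n * (n : ℝ) ^ 4 ≤ 1 := by
      rw [le_div_iff₀ (by positivity)] at h3
      exact h3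
    calc (1 / 2) ^ rho n * (n : ℝ) * (n ^ 3 * k) = ((1 / 2) ^ rho n * (n : ℝ) ^ 4) * k := by ring
      _ ≤ 1 * k := mul_le_mul_of_nonneg_right h4 hk0.le
  · have h5 : 100 * (rho n : ℝ) ^ 4 ≤ n := by linarith
    exact_mod_cast h5

theorem fin_i (hn : 3 ≤ n) (hkn : k ≤ n) (hq : (rho n : ℝ) ^ 4 ≤ k * (1 / 100)) :
    1 ≤ meanP (k / n) (gp (k / n) (univ : Finset (Fin n)) id (2 * rho n + 1)) ∧
    meanQ (gp (k / n) (univ : Finset (Fin n)) id (2 * rho n + 1)) ≤ 1 / 2 ∧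
    varP (k / n) (gp (k / n) (univ : Finset (Fin n)) id (2 * rho n + 1)) ≤
      26 * ((rho n : ℝ) ^ 4 / k) ∧
    varQ (gp (k / n) (univ : Finset (Fin n)) id (2 * rho n + 1)) ≤
      26 * ((rho n : ℝ) ^ 4 / k) := by
  obtain ⟨hk, hp, hp1, hy, hy1, hε, hsz⟩ := basics hn hkn hq
  have hk0 : 0 < k := by linarith
  have hn0 : (0 : ℝ) < n := by linarith
  have hρ4 : (4 : ℝ) ≤ rho n := by exact_mod_cast rho_ge n
  have hρn := rho_ge n
  have hρ0 : (0 : ℝ) < rho n := by linarith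
  have hsz' : 2 * rho n + 1 ≤ n := by
    refine le_trans ?_ hsz
    calc 2 * rho n + 1 ≤ 100 * rho n := by omega
      _ ≤ 100 * rho n ^ 4 := Nat.mul_le_mul_left _ (Nat.le_self_pow (by norm_num) _)
  have hm3 : ((2 * rho n + 1 : ℕ) : ℝ) ≤ 3 * rho n := by
    push_cast
    linarith
  have hm0 : (0 : ℝ) ≤ ((2 * rho n + 1 : ℕ) : ℝ) := by positivity
  have hρ1 : (rho n : ℝ) ≤ (rho n : ℝ) ^ 4 := le_self_pow₀ (by linarith) (by norm_num)
  have hn3 : (3 : ℝ) ≤ n := by exact_mod_cast hn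
  have hn1 : (1 : ℝ) ≤ (n : ℝ) ^ 3 := one_le_pow₀ (by linarith)
  set ε : ℝ := (1 / 2) ^ rho n / (k / n) with hεd
  have hε0 : 0 ≤ ε := by positivity
  have hεk : ε ≤ 1 / k := by
    refine hε.trans (one_div_le_one_div_of_le hk0 ?_)
    nlinarith
  set q : ℝ := (rho n : ℝ) ^ 4 / k with hqd
  have hq1 : q ≤ 1 / 100 := by
    rw [hqd, div_le_iff₀ hk0]
    linarith
  have hmε : ((2 * rho n + 1 : ℕ) : ℝ) * ε ≤ 3 * q := by
    calc ((2 * rho n + 1 : ℕ) : ℝ) * ε ≤ (3 * rho n) * (1 / k) :=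
          mul_le_mul hm3 hεk hε0 (by positivity)
      _ ≤ (3 * (rho n : ℝ) ^ 4) * (1 / k) := by
          refine mul_le_mul_of_nonneg_right (by linarith) (by positivity)
      _ = 3 * q := by rw [hqd]; ring
  have hz : ((2 * rho n + 1 : ℕ) : ℝ) * ((2 * rho n + 1 : ℕ) : ℝ) * (1 / (k / n) - 1) / n ≤ q := by
    rw [div_le_iff₀ hn0]
    calc ((2 * rho n + 1 : ℕ) : ℝ) * ((2 * rho n + 1 : ℕ) : ℝ) * (1 / (k / n) - 1)
        ≤ ((3 * rho n) * (3 * rho n)) * (n / k) := by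
          refine mul_le_mul ?_ hy1 hy (by positivity)
          exact mul_le_mul hm3 hm3 hm0 (by positivity)
      _ = 9 * (rho n : ℝ) ^ 2 * (n / k) := by ring
      _ ≤ (rho n : ℝ) ^ 4 * (n / k) := by
          refine mul_le_mul_of_nonneg_right ?_ (by positivity)
          nlinarith [mul_pos hρ0 hρ0, pow_pos hρ0 3]
      _ = q * n := by rw [hqd]; ring
  refine ⟨mean_ge hp hp1 hsz', ?_, ?_, ?_⟩
  · have h1 := EQ_g_le hp hsz'
    unfold meanQ
    have h2 : ev (gp (k / n) (univ : Finset (Fin n)) id (2 * rho n + 1)) =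
        fun Y => g (k / n) univ id (2 * rho n + 1) Y := by
      funext Y
      exact ev_gp _ _ _ _ _
    rw [h2]
    refine h1.trans ?_
    have h3 : ε ≤ 1 / 2 := by
      refine hεk.trans (one_div_le_one_div_of_le (by norm_num) (by linarith))
    exact (pow_le_of_le_one hε0 (by linarith) (by omega)).trans h3
  · have h1 := var_le (n := n) hp hp1 hsz' hεd rfl (by linarith) (by linarith)
    refine h1.trans ?_
    linarith
  · refine (varQ_le _).trans ?_
    simp only [ev_gp]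
    refine (EQ_gg_le hp hsz').trans ?_
    have h3 : ((1 / 2 : ℝ)) ^ rho n / (k / n) ^ 2 = ε / (k / n) := by
      rw [hεd]
      field_simp
    have h4 : ε / (k / n) ≤ 1 / k := by
      rw [div_le_iff₀ hp]
      refine hε.trans ?_
      rw [div_le_iff₀ (by positivity)]
      have h5 : 1 / k * (k / n) * (n ^ 3 * k) = n ^ 2 * k := by field_simp
      rw [h5]
      nlinarith
    have h5 : 1 / k ≤ q := by
      rw [hqd]
      refine div_le_div_of_nonneg_right ?_ hk0.le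
      linarith
    have h6 : 0 ≤ ε / (k / n) := by positivity
    have h7 : 0 ≤ q := by positivity
    rw [h3]
    refine (pow_le_of_le_one h6 (by linarith) (by omega)).trans ?_
    linarith

theorem fin_ii (hn : 3 ≤ n) (hkn : k ≤ n) (hq : (rho n : ℝ) ^ 4 ≤ k * (1 / 100)) (o : Fin n) :
    EP n (k / n) (fun S Y => (ev (fp (k / n) o (2 * rho n)) Y - xo o S) ^ 2) ≤
      2764 * ((rho n : ℝ) ^ 4 / k) * (1 / n) := by
  obtain ⟨hk, hp, hp1, hy, hy1, hε, hsz⟩ := basics hn hkn hq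
  have hk0 : 0 < k := by linarith
  have hn0 : (0 : ℝ) < n := by linarith
  have hρ4 : (4 : ℝ) ≤ rho n := by exact_mod_cast rho_ge n
  have hρn := rho_ge n
  have hρ0 : (0 : ℝ) < rho n := by linarith
  have hsz' : 4 * rho n + 1 ≤ n := by
    refine le_trans ?_ hsz
    calc 4 * rho n + 1 ≤ 100 * rho n := by omega
      _ ≤ 100 * rho n ^ 4 := Nat.mul_le_mul_left _ (Nat.le_self_pow (by norm_num) _)
  have hρ1 : (rho n : ℝ) ≤ (rho n : ℝ) ^ 4 := le_self_pow₀ (by linarith) (by norm_num)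
  have hn3 : (3 : ℝ) ≤ n := by exact_mod_cast hn
  have hn1 : (1 : ℝ) ≤ (n : ℝ) ^ 3 := one_le_pow₀ (by linarith)
  have hN : (n : ℝ) / 2 ≤ ((n - 1 : ℕ) : ℝ) := by
    rw [Nat.cast_sub (by omega)]
    push_cast
    linarith
  have hN0 : (0 : ℝ) < ((n - 1 : ℕ) : ℝ) := by linarith
  set ε : ℝ := (1 / 2) ^ rho n / (k / n) with hεd
  have hε0 : 0 ≤ ε := by positivity
  have hεk : ε ≤ 1 / k := by
    refine hε.trans (one_div_le_one_div_of_le hk0 ?_)
    nlinarith
  set q : ℝ := (rho n : ℝ) ^ 4 / k with hqd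
  have hq1 : q ≤ 1 / 100 := by
    rw [hqd, div_le_iff₀ hk0]
    linarith
  have hrε : ((2 * rho n : ℕ) : ℝ) * ε ≤ 2 * q := by
    push_cast
    calc 2 * (rho n : ℝ) * ε ≤ (2 * rho n) * (1 / k) :=
          mul_le_mul_of_nonneg_left hεk (by positivity)
      _ ≤ (2 * (rho n : ℝ) ^ 4) * (1 / k) := by
          refine mul_le_mul_of_nonneg_right (by linarith) (by positivity)
      _ = 2 * q := by rw [hqd]; ring
  set z : ℝ := ((2 * rho n : ℕ) : ℝ) * ((2 * rho n : ℕ) : ℝ) * (1 / (k / n) - 1) /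
    ((n - 1 : ℕ) : ℝ) with hzd
  have hz0 : 0 ≤ z := by positivity
  have hz : z ≤ 8 * (rho n : ℝ) ^ 2 / k := by
    rw [hzd, div_le_iff₀ hN0]
    have h1 : ((2 * rho n : ℕ) : ℝ) * ((2 * rho n : ℕ) : ℝ) = 4 * (rho n : ℝ) ^ 2 := by
      push_cast
      ring
    rw [h1]
    calc 4 * (rho n : ℝ) ^ 2 * (1 / (k / n) - 1) ≤ 4 * (rho n : ℝ) ^ 2 * (n / k) :=
          mul_le_mul_of_nonneg_left hy1 (by positivity)
      _ = 8 * (rho n : ℝ) ^ 2 / k * (n / 2) := by ring
      _ ≤ _ := mul_le_mul_of_nonneg_left hN (by positivity)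
  have hz2 : z ≤ 1 / 8 := by
    refine hz.trans ?_
    have h1 : 8 * (rho n : ℝ) ^ 2 / k ≤ q := by
      rw [hqd]
      refine div_le_div_of_nonneg_right ?_ hk0.le
      nlinarith [mul_pos hρ0 hρ0, pow_pos hρ0 3]
    linarith
  have h1 := mse_le (n := n) hp hp1 (ρ := rho n) (by omega) o hsz' hεd hzd hz2 (by linarith)
  refine h1.trans ?_
  have h2 : 40 * (k / n) * z ^ 2 ≤ 2560 * q * (1 / n) := by
    have h3 : z ^ 2 ≤ (8 * (rho n : ℝ) ^ 2 / k) ^ 2 := pow_le_pow_left₀ hz0 hz 2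
    calc 40 * (k / n) * z ^ 2 ≤ 40 * (k / n) * (8 * (rho n : ℝ) ^ 2 / k) ^ 2 :=
          mul_le_mul_of_nonneg_left h3 (by positivity)
      _ = 2560 * q * (1 / n) := by
          rw [hqd]
          field_simp
          ring
  have h3 : (72 * ((2 * rho n : ℕ) : ℝ) + 60) * (1 / 2) ^ rho n ≤ 204 * q * (1 / n) := by
    have h4 := theta_le (n := n) (by omega)
    have h5 : 72 * ((2 * rho n : ℕ) : ℝ) + 60 ≤ 204 * (rho n : ℝ) ^ 4 := by
      push_cast
      linarith
    calc (72 * ((2 * rho n : ℕ) : ℝ) + 60) * (1 / 2) ^ rho n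
        ≤ (204 * (rho n : ℝ) ^ 4) * (1 / (n : ℝ) ^ 4) :=
          mul_le_mul h5 h4 (by positivity) (by positivity)
      _ ≤ (204 * (rho n : ℝ) ^ 4) * (1 / (k * n)) := by
          refine mul_le_mul_of_nonneg_left ?_ (by positivity)
          refine one_div_le_one_div_of_le (by positivity) ?_
          have h6 : k * n ≤ n * n := mul_le_mul_of_nonneg_right hkn hn0.le
          have h7 : (n : ℝ) * n ≤ (n : ℝ) ^ 4 := by
            have h8 : (n : ℝ) ^ 2 ≤ (n : ℝ) ^ 4 := pow_le_pow_right₀ (by linarith) (by norm_num)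
            nlinarith
          linarith
      _ = 204 * q * (1 / n) := by
          rw [hqd]
          field_simp
  linarith

theorem MMSE_nonneg {D : ℕ} (h0 : 0 ≤ k) (hkn : k ≤ n) : 0 ≤ MMSE n k D := by
  unfold MMSE
  refine Real.iInf_nonneg fun f => EP_nonneg (by positivity) ?_ fun S Y => sq_nonneg _
  exact div_le_one_of_le₀ hkn (by positivity)

theorem MMSE_le {D : ℕ} (h0 : 0 ≤ k) (hkn : k ≤ n) (f : MvPolynomial (Edge n) ℝ)
    (hf : f.totalDegree ≤ D) : MMSE n k D ≤ EP n (k / n) fun S Y => (ev f Y - ind S) ^ 2 := by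
  unfold MMSE
  refine ciInf_le ⟨0, ?_⟩ (⟨f, hf⟩ : {f : MvPolynomial (Edge n) ℝ // f.totalDegree ≤ D})
  rintro _ ⟨g, rfl⟩
  exact EP_nonneg (by positivity) (div_le_one_of_le₀ hkn (by positivity)) fun S Y => sq_nonneg _

theorem ind_eq (hn : 0 < n) (S : Finset (Fin n)) : ind S = xo ⟨0, hn⟩ S := by
  unfold ind xo
  by_cases h : (⟨0, hn⟩ : Fin n) ∈ S
  · rw [if_pos h, if_pos ⟨hn, h⟩]
  · rw [if_neg h, if_neg]
    rintro ⟨_, h1⟩
    exact h h1

end

theorem main {a : ℝ} (ha : 0 < a) {k : ℕ → ℝ} (hk : ∀ n, 0 ≤ k n ∧ k n ≤ n)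
    (hka : k =Θ[atTop] fun n => (n : ℝ) ^ a) :
    Succeeds k fun n => ⌈2000 * Real.log n ^ 2⌉₊ := by
  -- the small quantity
  have h1 : (fun n => (rho n : ℝ) ^ 4) =o[atTop] k := by
    have h2 : (fun n => (rho n : ℝ) ^ 4) =O[atTop] fun n : ℕ => Real.log n ^ 4 := by
      refine IsBigO.of_bound (10 ^ 4) ?_
      filter_upwards [eventually_ge_atTop 3] with n hn
      have h3 := rho_le hn
      have h4 := one_le_log hn
      rw [Real.norm_of_nonneg (by positivity), Real.norm_of_nonneg (by positivity), ← mul_pow]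
      exact pow_le_pow_left₀ (by positivity) h3 4
    have h3 : (fun n : ℕ => Real.log n ^ 4) =o[atTop] fun n : ℕ => (n : ℝ) ^ a := by
      have h4 := (isLittleO_log_rpow_rpow_atTop (4 : ℝ) ha).comp_tendsto
        tendsto_natCast_atTop_atTop
      refine h4.congr_left fun n => ?_
      simp only [Function.comp]
      norm_cast
    exact (h2.trans_isLittleO h3).trans_isBigO hka.2
  have hq := h1.tendsto_div_nhds_zero
  have hev : ∀ᶠ n : ℕ in atTop, (rho n : ℝ) ^ 4 ≤ k n * (1 / 100) := by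
    filter_upwards [h1.bound (show (0 : ℝ) < 1 / 100 by norm_num)] with n hn
    rw [Real.norm_of_nonneg (by positivity), Real.norm_of_nonneg (hk n).1] at hn
    linarith
  have hdeg : ∀ n : ℕ, 3 ≤ n → (2 * (2 * rho n) + 2) ^ 2 ≤ ⌈2000 * Real.log n ^ 2⌉₊ := by
    intro n hn
    have h3 := rho_le hn
    have h4 := one_le_log hn
    have h5 : (((2 * (2 * rho n) + 2) ^ 2 : ℕ) : ℝ) ≤ 2000 * Real.log n ^ 2 := by
      push_cast
      have h6 : 2 * (2 * (rho n : ℝ)) + 2 ≤ 42 * Real.log n := by linarith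
      have h7 : (2 * (2 * (rho n : ℝ)) + 2) ^ 2 ≤ (42 * Real.log n) ^ 2 :=
        pow_le_pow_left₀ (by positivity) h6 2
      nlinarith [sq_nonneg (Real.log n)]
    exact_mod_cast h5.trans (Nat.le_ceil _)
  refine ⟨⟨fun n => if 3 ≤ n then
      gp (k n / n) (univ : Finset (Fin n)) id (2 * rho n + 1) else 0, ?_, ?_⟩, ?_⟩
  · intro n
    by_cases hn : 3 ≤ n
    · simp only [if_pos hn]
      refine le_trans ?_ (hdeg n hn)
      refine (deg_gp (m := 2 * rho n + 1) fun T hT => ?_).trans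
        (Nat.pow_le_pow_left (by omega) 2)
      exact (mem_powersetCard.1 hT).2.le
    · simp only [if_neg hn, MvPolynomial.totalDegree_zero]
      exact Nat.zero_le _
  · have h2 : ∀ᶠ n : ℕ in atTop, (1 : ℝ) / 2 ≤ meanP (k n / n) (if 3 ≤ n then
        gp (k n / n) (univ : Finset (Fin n)) id (2 * rho n + 1) else 0) -
        meanQ (if 3 ≤ n then
        gp (k n / n) (univ : Finset (Fin n)) id (2 * rho n + 1) else 0) := by
      filter_upwards [hev, eventually_ge_atTop 3] with n h3 hn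
      rw [if_pos hn]
      obtain ⟨h4, h5, -, -⟩ := fin_i hn (hk n).2 h3
      linarith
    have h3 : ∀ᶠ n : ℕ in atTop, Real.sqrt (max (varP (k n / n) (if 3 ≤ n then
        gp (k n / n) (univ : Finset (Fin n)) id (2 * rho n + 1) else 0))
        (varQ (if 3 ≤ n then
        gp (k n / n) (univ : Finset (Fin n)) id (2 * rho n + 1) else 0))) ≤
        Real.sqrt (26 * ((rho n : ℝ) ^ 4 / k n)) := by
      filter_upwards [hev, eventually_ge_atTop 3] with n h3 hn
      rw [if_pos hn]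
      obtain ⟨-, -, h4, h5⟩ := fin_i hn (hk n).2 h3
      exact Real.sqrt_le_sqrt (max_le h4 h5)
    have h4 : Tendsto (fun n => Real.sqrt (26 * ((rho n : ℝ) ^ 4 / k n))) atTop (nhds 0) := by
      have h5 := (hq.const_mul 26).sqrt
      simpa using h5
    have h5 : (fun n : ℕ => Real.sqrt (max (varP (k n / n) (if 3 ≤ n then
        gp (k n / n) (univ : Finset (Fin n)) id (2 * rho n + 1) else 0))
        (varQ (if 3 ≤ n then
        gp (k n / n) (univ : Finset (Fin n)) id (2 * rho n + 1) else 0)))) =o[atTop]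
        fun _ => (1 : ℝ) := by
      rw [isLittleO_one_iff]
      exact squeeze_zero' (Eventually.of_forall fun n => Real.sqrt_nonneg _) h3 h4
    refine h5.trans_isBigO ?_
    refine IsBigO.of_bound 2 ?_
    filter_upwards [h2] with n h6
    rw [Real.norm_of_nonneg (by linarith : (0 : ℝ) ≤ meanP (k n / n) (if 3 ≤ n then
        gp (k n / n) (univ : Finset (Fin n)) id (2 * rho n + 1) else 0) -
        meanQ (if 3 ≤ n then
        gp (k n / n) (univ : Finset (Fin n)) id (2 * rho n + 1) else 0)), norm_one]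
    linarith
  · have h2 : (fun n => MMSE n (k n) ⌈2000 * Real.log n ^ 2⌉₊) =O[atTop]
        fun n : ℕ => ((rho n : ℝ) ^ 4 / k n) * (1 / n) := by
      refine IsBigO.of_bound 2764 ?_
      filter_upwards [hev, eventually_ge_atTop 3] with n h3 hn
      have h4 := MMSE_le (D := ⌈2000 * Real.log n ^ 2⌉₊) (hk n).1 (hk n).2
        (fp (k n / n) ⟨0, by omega⟩ (2 * rho n)) ((deg_fp _ _ _).trans (hdeg n hn))
      simp only [ind_eq (show 0 < n by omega)] at h4
      have h5 := h4.trans (fin_ii hn (hk n).2 h3 ⟨0, by omega⟩)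
      have h6 := (hk n).1
      rw [Real.norm_of_nonneg (MMSE_nonneg (hk n).1 (hk n).2),
        Real.norm_of_nonneg (by positivity)]
      linarith
    refine h2.trans_isLittleO ?_
    have h7 : (fun n : ℕ => (rho n : ℝ) ^ 4 / k n) =o[atTop] fun _ => (1 : ℝ) := by
      rw [isLittleO_one_iff]
      exact hq
    have h8 := h7.mul_isBigO (isBigO_refl (fun n : ℕ => 1 / (n : ℝ)) atTop)
    simpa using h8

end Pool.Agent.Q227.PC
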