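import Pool.Agent.Q227.PC.Exp
import Pool.Agent.Q227.PC.Cnt

/-!
# Moments of normalised numbers of cliques
-/

set_option autoImplicit false

namespace Pool.Agent.Q227.PC

open Finset

variable {n : ℕ}

theorem EP_add (p : ℝ) (F G : Finset (Fin n) → Gr n → ℝ) :
    EP n p (fun S Y => F S Y + G S Y) = EP n p F + EP n p G := by
  simp only [EP_eq]
  rw [← Finset.sum_add_distrib]
  refine Finset.sum_congr rfl fun S _ => ?_
  rw [EQ_add, mul_add]

theorem EP_smul (p c : ℝ) (F : Finset (Fin n) → Gr n → ℝ) :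
    EP n p (fun S Y => c * F S Y) = c * EP n p F := by
  simp only [EP_eq]
  rw [Finset.mul_sum]
  refine Finset.sum_congr rfl fun S _ => ?_
  rw [EQ_smul]
  ring

theorem EP_sum {ι : Type} (p : ℝ) (s : Finset ι) (F : ι → Finset (Fin n) → Gr n → ℝ) :
    EP n p (fun S Y => ∑ i ∈ s, F i S Y) = ∑ i ∈ s, EP n p (F i) := by
  simp only [EP_eq]
  rw [Finset.sum_comm]
  refine Finset.sum_congr rfl fun S _ => ?_
  rw [EQ_sum, Finset.mul_sum]

theorem EP_mono {p : ℝ} (h0 : 0 ≤ p) (h1 : p ≤ 1) {F G : Finset (Fin n) → Gr n → ℝ}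
    (h : ∀ S Y, F S Y ≤ G S Y) : EP n p F ≤ EP n p G := by
  simp only [EP_eq]
  refine Finset.sum_le_sum fun S _ => ?_
  exact mul_le_mul_of_nonneg_left (EQ_mono fun Y => h S _) (w_nonneg h0 h1 S)

theorem EP_zero (p : ℝ) : EP n p (fun _ _ => 0) = 0 := by
  simp [EP_eq, EQ]

theorem EP_nonneg {p : ℝ} (h0 : 0 ≤ p) (h1 : p ≤ 1) {F : Finset (Fin n) → Gr n → ℝ}
    (h : ∀ S Y, 0 ≤ F S Y) : 0 ≤ EP n p F := by
  rw [← EP_zero (n := n) p]
  exact EP_mono h0 h1 h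

theorem EQ_const (c : ℝ) : EQ n (fun _ => c) = c := by
  unfold EQ
  rw [Finset.sum_const, Finset.card_univ, nsmul_eq_mul, Fintype.card_fun, Fintype.card_bool]
  push_cast
  field_simp

theorem EP_S (p : ℝ) (a : Finset (Fin n) → ℝ) :
    EP n p (fun S _ => a S) = ∑ S : Finset (Fin n), w n p S * a S := by
  rw [EP_eq]
  refine Finset.sum_congr rfl fun S _ => ?_
  rw [EQ_const]

/-- The mean of `a(S) I_T I_T'`. -/
noncomputable def B (p : ℝ) (a : Finset (Fin n) → ℝ) (T T' : Finset (Fin n)) : ℝ :=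
  EP n p fun S Y => a S * (I (E T) Y * I (E T') Y)

theorem B_eq (p : ℝ) (a : Finset (Fin n) → ℝ) (T T' : Finset (Fin n)) :
    B p a T T' = ∑ S : Finset (Fin n), w n p S *
      (a S * EQ n (fun Y => I (E T) (plant S Y) * I (E T') (plant S Y))) := by
  rw [B, EP_eq]
  refine Finset.sum_congr rfl fun S _ => ?_
  rw [EQ_smul]

/-- The indicator of `o ∈ S`. -/
def xo (o : Fin n) (S : Finset (Fin n)) : ℝ := if o ∈ S then 1 else 0

theorem xo_nonneg (o : Fin n) (S : Finset (Fin n)) : 0 ≤ xo o S := by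
  unfold xo
  split_ifs <;> norm_num

theorem xo_le (o : Fin n) (S : Finset (Fin n)) : xo o S ≤ 1 := by
  unfold xo
  split_ifs <;> norm_num

theorem B_le {p : ℝ} (h0 : 0 ≤ p) (h1 : p ≤ 1) {ρ : ℕ} {T T' : Finset (Fin n)}
    (hT : 2 * ρ + 1 ≤ T.card) (hT' : 2 * ρ + 1 ≤ T'.card) {a : Finset (Fin n) → ℝ}
    (ha : ∀ S, 0 ≤ a S) :
    B p a T T' ≤ ∑ S : Finset (Fin n), w n p S *
      (a S * ((1 / 2) ^ ρ) ^ ((T ∪ T') \ S).card) := by
  rw [B_eq]
  refine Finset.sum_le_sum fun S _ => ?_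
  exact mul_le_mul_of_nonneg_left (mul_le_mul_of_nonneg_left (EQ_II_le hT hT') (ha S))
    (w_nonneg h0 h1 S)

theorem base_le {p θ : ℝ} (h0 : 0 ≤ p) (h1 : p ≤ 1) (hθ : 0 ≤ θ) :
    0 ≤ p + (1 - p) * θ ∧ p + (1 - p) * θ ≤ p + θ := by
  have : 0 ≤ 1 - p := by linarith
  constructor
  · positivity
  · nlinarith

theorem B_one_le {p : ℝ} (h0 : 0 ≤ p) (h1 : p ≤ 1) {ρ : ℕ} {T T' : Finset (Fin n)}
    (hT : 2 * ρ + 1 ≤ T.card) (hT' : 2 * ρ + 1 ≤ T'.card) :
    B p (fun _ => 1) T T' ≤ (p + (1 / 2) ^ ρ) ^ (T ∪ T').card := by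
  refine (B_le h0 h1 hT hT' fun _ => zero_le_one).trans ?_
  simp only [one_mul]
  rw [sum_w_theta]
  have h2 := base_le h0 h1 (θ := (1 / 2) ^ ρ) (by positivity)
  exact pow_le_pow_left₀ h2.1 h2.2 _

theorem B_in_le {p : ℝ} (h0 : 0 ≤ p) (h1 : p ≤ 1) {ρ : ℕ} {T T' : Finset (Fin n)}
    (hT : 2 * ρ + 1 ≤ T.card) (hT' : 2 * ρ + 1 ≤ T'.card) {o : Fin n} (ho : o ∈ T ∪ T') :
    B p (xo o) T T' ≤ p * (p + (1 / 2) ^ ρ) ^ ((T ∪ T').card - 1) := by
  refine (B_le h0 h1 hT hT' (xo_nonneg o)).trans ?_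
  unfold xo
  rw [sum_w_theta_in _ _ _ ho]
  have h2 := base_le h0 h1 (θ := (1 / 2) ^ ρ) (by positivity)
  exact mul_le_mul_of_nonneg_left (pow_le_pow_left₀ h2.1 h2.2 _) h0

theorem B_out_le {p : ℝ} (h0 : 0 ≤ p) (h1 : p ≤ 1) {ρ : ℕ} {T T' : Finset (Fin n)}
    (hT : 2 * ρ + 1 ≤ T.card) (hT' : 2 * ρ + 1 ≤ T'.card) {o : Fin n} (ho : o ∈ T ∪ T') :
    B p (fun S => 1 - xo o S) T T' ≤
      (1 / 2) ^ ρ * (p + (1 / 2) ^ ρ) ^ ((T ∪ T').card - 1) := by
  refine (B_le h0 h1 hT hT' (a := fun S => 1 - xo o S) fun S => by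
    linarith [xo_le o S]).trans ?_
  set θ : ℝ := (1 / 2) ^ ρ with hθ
  have hθ0 : 0 ≤ θ := by positivity
  have h3 : ∑ S : Finset (Fin n), w n p S * ((1 - xo o S) * θ ^ ((T ∪ T') \ S).card) =
      (p + (1 - p) * θ) ^ (T ∪ T').card - p * (p + (1 - p) * θ) ^ ((T ∪ T').card - 1) := by
    rw [← sum_w_theta, ← sum_w_theta_in _ _ _ ho, ← Finset.sum_sub_distrib]
    refine Finset.sum_congr rfl fun S _ => ?_
    unfold xo
    ring
  have h4 : 0 < (T ∪ T').card := Finset.card_pos.2 ⟨o, ho⟩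
  obtain ⟨m, hm⟩ := Nat.exists_eq_succ_of_ne_zero h4.ne'
  have h2 := base_le h0 h1 (θ := θ) hθ0
  have h6 : (p + (1 - p) * θ) ^ m ≤ (p + θ) ^ m := pow_le_pow_left₀ h2.1 h2.2 _
  have h7 : 0 ≤ (p + θ) ^ m := by positivity
  rw [h3, hm, Nat.succ_eq_add_one, Nat.add_sub_cancel, pow_succ]
  have h8 : (p + (1 - p) * θ) ^ m * (p + (1 - p) * θ) - p * (p + (1 - p) * θ) ^ m =
      ((1 - p) * θ) * (p + (1 - p) * θ) ^ m := by ring
  rw [h8]
  refine mul_le_mul ?_ h6 (pow_nonneg h2.1 _) hθ0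
  nlinarith

theorem zero_pow_le (T T' S : Finset (Fin n)) :
    (0 : ℝ) ^ ((T ∪ T') \ S).card ≤
      EQ n (fun Y => I (E T) (plant S Y) * I (E T') (plant S Y)) := by
  by_cases h : T ∪ T' ⊆ S
  · rw [EQ_II_sub h]
    rw [Finset.sdiff_eq_empty_iff_subset.2 h]
    simp
  · rw [zero_pow]
    · exact EQ_II_nonneg T T' S
    · intro h1
      rw [Finset.card_eq_zero, Finset.sdiff_eq_empty_iff_subset] at h1
      exact h h1

theorem le_B {p : ℝ} (h0 : 0 ≤ p) (h1 : p ≤ 1) (T T' : Finset (Fin n))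
    {a : Finset (Fin n) → ℝ} (ha : ∀ S, 0 ≤ a S) :
    ∑ S : Finset (Fin n), w n p S * (a S * 0 ^ ((T ∪ T') \ S).card) ≤ B p a T T' := by
  rw [B_eq]
  refine Finset.sum_le_sum fun S _ => ?_
  exact mul_le_mul_of_nonneg_left (mul_le_mul_of_nonneg_left (zero_pow_le T T' S) (ha S))
    (w_nonneg h0 h1 S)

theorem le_B_one {p : ℝ} (h0 : 0 ≤ p) (h1 : p ≤ 1) (T T' : Finset (Fin n)) :
    p ^ (T ∪ T').card ≤ B p (fun _ => 1) T T' := by
  refine le_trans (le_of_eq ?_) (le_B h0 h1 T T' fun _ => zero_le_one)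
  simp only [one_mul]
  rw [sum_w_theta, mul_zero, add_zero]

theorem le_B_in {p : ℝ} (h0 : 0 ≤ p) (h1 : p ≤ 1) (T T' : Finset (Fin n)) {o : Fin n}
    (ho : o ∈ T ∪ T') :
    p * p ^ ((T ∪ T').card - 1) ≤ B p (xo o) T T' := by
  refine le_trans (le_of_eq ?_) (le_B h0 h1 T T' (xo_nonneg o))
  unfold xo
  rw [sum_w_theta_in _ _ _ ho, mul_zero, add_zero]

/-! ### Normalised sums -/

/-- The normalised sum of clique indicators. -/
noncomputable def g (p : ℝ) (V : Finset (Fin n)) (τ : Finset (Fin n) → Finset (Fin n)) (t : ℕ)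
    (Y : Gr n) : ℝ :=
  (1 / ((V.card.choose t : ℝ) * p ^ t)) * ∑ T ∈ V.powersetCard t, I (E (τ T)) Y

theorem I_self (A : Finset (Edge n)) (Y : Gr n) : I A Y * I A Y = I A Y := by
  rw [I_mul, Finset.union_self]

section

variable {p ε : ℝ} {V : Finset (Fin n)} {τ : Finset (Fin n) → Finset (Fin n)}
  {a : Finset (Fin n) → ℝ} {M : ℝ}

theorem EP_gg (t t' : ℕ) :
    EP n p (fun S Y => a S * (g p V τ t Y * g p V τ t' Y)) =
      (1 / ((V.card.choose t : ℝ) * p ^ t)) * (1 / ((V.card.choose t' : ℝ) * p ^ t')) *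
        ∑ T ∈ V.powersetCard t, ∑ T' ∈ V.powersetCard t', B p a (τ T) (τ T') := by
  simp only [B]
  rw [Finset.sum_congr rfl fun T _ => (EP_sum p (V.powersetCard t')
    fun T' S Y => a S * (I (E (τ T)) Y * I (E (τ T')) Y)).symm]
  rw [← EP_sum p (V.powersetCard t), ← EP_smul]
  congr 1
  funext S Y
  unfold g
  have h1 : ∀ c c' s s' u : ℝ, u * ((c * s) * (c' * s')) = c * c' * (u * (s * s')) := by
    intros
    ring
  rw [h1, Finset.sum_mul_sum, Finset.mul_sum]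
  congr 1
  refine Finset.sum_congr rfl fun T _ => ?_
  rw [Finset.mul_sum]

theorem EP_g (t : ℕ) :
    EP n p (fun S Y => a S * g p V τ t Y) =
      (1 / ((V.card.choose t : ℝ) * p ^ t)) * ∑ T ∈ V.powersetCard t, B p a (τ T) (τ T) := by
  simp only [B, I_self]
  rw [← EP_sum p (V.powersetCard t), ← EP_smul]
  congr 1
  funext S Y
  unfold g
  rw [Finset.mul_sum, Finset.mul_sum, Finset.mul_sum]
  refine Finset.sum_congr rfl fun T _ => ?_
  ring

theorem pow_union (hp : 0 < p) {T T' : Finset (Fin n)} {t t' : ℕ} (h : T.card = t)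
    (h' : T'.card = t') :
    p ^ (T ∪ T').card = p ^ t * p ^ t' * (1 + (1 / p - 1)) ^ (T ∩ T').card := by
  have h1 := Finset.card_union_add_card_inter T T'
  rw [← pow_add, ← h, ← h', ← h1, pow_add, add_sub_cancel, one_div, inv_pow]
  field_simp

theorem EP_gg_le (hp : 0 < p) (hM : 0 ≤ M) (hε : 0 ≤ ε) {t t' : ℕ} (ht : t ≤ V.card)
    (ht' : t' ≤ V.card)
    (hB : ∀ T ∈ V.powersetCard t, ∀ T' ∈ V.powersetCard t',
      B p a (τ T) (τ T') ≤ M * (p * (1 + ε)) ^ (T ∪ T').card) :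
    EP n p (fun S Y => a S * (g p V τ t Y * g p V τ t' Y)) ≤
      M * (1 + ε) ^ (t + t') * Phi V.card t t' (1 / p - 1) := by
  have hc : (0 : ℝ) < V.card.choose t := by exact_mod_cast Nat.choose_pos ht
  have hc' : (0 : ℝ) < V.card.choose t' := by exact_mod_cast Nat.choose_pos ht'
  have h1 : ∑ T ∈ V.powersetCard t, ∑ T' ∈ V.powersetCard t', B p a (τ T) (τ T') ≤
      ∑ T ∈ V.powersetCard t, ∑ T' ∈ V.powersetCard t',
        (M * (1 + ε) ^ (t + t') * (p ^ t * p ^ t')) * (1 + (1 / p - 1)) ^ (T ∩ T').card := by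
    refine Finset.sum_le_sum fun T hT => Finset.sum_le_sum fun T' hT' => ?_
    refine (hB T hT T' hT').trans ?_
    rw [mem_powersetCard] at hT hT'
    rw [mul_pow, pow_union hp hT.2 hT'.2]
    have h2 : (1 + ε) ^ (T ∪ T').card ≤ (1 + ε) ^ (t + t') := by
      refine pow_le_pow_right₀ (by linarith) ?_
      have := Finset.card_union_le T T'
      omega
    have h3 : 0 ≤ (1 + (1 / p - 1)) := by
      rw [add_sub_cancel]
      positivity
    calc M * (p ^ t * p ^ t' * (1 + (1 / p - 1)) ^ (T ∩ T').card * (1 + ε) ^ (T ∪ T').card)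
        = (M * (p ^ t * p ^ t') * (1 + (1 / p - 1)) ^ (T ∩ T').card) * (1 + ε) ^ (T ∪ T').card := by
          ring
      _ ≤ (M * (p ^ t * p ^ t') * (1 + (1 / p - 1)) ^ (T ∩ T').card) * (1 + ε) ^ (t + t') :=
          mul_le_mul_of_nonneg_left h2 (by positivity)
      _ = _ := by ring
  simp only [← Finset.mul_sum] at h1
  rw [sum_inter] at h1
  rw [EP_gg]
  refine (mul_le_mul_of_nonneg_left h1 (by positivity)).trans (le_of_eq ?_)
  field_simp

theorem le_EP_gg (hp : 0 < p) {t t' : ℕ} (ht : t ≤ V.card) (ht' : t' ≤ V.card)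
    (hB : ∀ T ∈ V.powersetCard t, ∀ T' ∈ V.powersetCard t',
      M * p ^ (T ∪ T').card ≤ B p a (τ T) (τ T')) :
    M * Phi V.card t t' (1 / p - 1) ≤
      EP n p (fun S Y => a S * (g p V τ t Y * g p V τ t' Y)) := by
  have hc : (0 : ℝ) < V.card.choose t := by exact_mod_cast Nat.choose_pos ht
  have hc' : (0 : ℝ) < V.card.choose t' := by exact_mod_cast Nat.choose_pos ht'
  have h1 : ∑ T ∈ V.powersetCard t, ∑ T' ∈ V.powersetCard t',
        (M * (p ^ t * p ^ t')) * (1 + (1 / p - 1)) ^ (T ∩ T').card ≤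
      ∑ T ∈ V.powersetCard t, ∑ T' ∈ V.powersetCard t', B p a (τ T) (τ T') := by
    refine Finset.sum_le_sum fun T hT => Finset.sum_le_sum fun T' hT' => ?_
    refine le_trans (le_of_eq ?_) (hB T hT T' hT')
    rw [mem_powersetCard] at hT hT'
    rw [pow_union hp hT.2 hT'.2]
    ring
  simp only [← Finset.mul_sum] at h1
  rw [sum_inter] at h1
  rw [EP_gg]
  refine le_trans (le_of_eq ?_) (mul_le_mul_of_nonneg_left h1 (by positivity))
  field_simp

theorem EP_g_le (hp : 0 < p) {t : ℕ} (ht : t ≤ V.card)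
    (hB : ∀ T ∈ V.powersetCard t, B p a (τ T) (τ T) ≤ M * (p * (1 + ε)) ^ t) :
    EP n p (fun S Y => a S * g p V τ t Y) ≤ M * (1 + ε) ^ t := by
  have hc : (0 : ℝ) < V.card.choose t := by exact_mod_cast Nat.choose_pos ht
  have h1 : ∑ T ∈ V.powersetCard t, B p a (τ T) (τ T) ≤
      ∑ _T ∈ V.powersetCard t, M * (p * (1 + ε)) ^ t := Finset.sum_le_sum hB
  rw [Finset.sum_const, Finset.card_powersetCard, nsmul_eq_mul] at h1
  rw [EP_g]
  refine (mul_le_mul_of_nonneg_left h1 (by positivity)).trans (le_of_eq ?_)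
  rw [mul_pow]
  field_simp

theorem le_EP_g (hp : 0 < p) {t : ℕ} (ht : t ≤ V.card)
    (hB : ∀ T ∈ V.powersetCard t, M * p ^ t ≤ B p a (τ T) (τ T)) :
    M ≤ EP n p (fun S Y => a S * g p V τ t Y) := by
  have hc : (0 : ℝ) < V.card.choose t := by exact_mod_cast Nat.choose_pos ht
  have h1 : ∑ _T ∈ V.powersetCard t, M * p ^ t ≤ ∑ T ∈ V.powersetCard t, B p a (τ T) (τ T) :=
    Finset.sum_le_sum hB
  rw [Finset.sum_const, Finset.card_powersetCard, nsmul_eq_mul] at h1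
  rw [EP_g]
  refine le_trans (le_of_eq ?_) (mul_le_mul_of_nonneg_left h1 (by positivity))
  field_simp

end

end Pool.Agent.Q227.PC
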