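import Pool.Agent.Q227.PC.Pol

/-!
# The mean square error, for fixed `n`
-/

set_option autoImplicit false

namespace Pool.Agent.Q227.PC

open Finset

variable {n : ℕ}

theorem xo_sq (o : Fin n) (S : Finset (Fin n)) (G H : ℝ) :
    (2 * G - H - xo o S) ^ 2 = xo o S * (2 * G - H - 1) ^ 2 +
      (1 - xo o S) * (2 * G - H) ^ 2 := by
  unfold xo
  split_ifs <;> ring

theorem EP_xo (p : ℝ) (o : Fin n) : EP n p (fun S _ => xo o S) = p := by
  rw [EP_S]
  have h := sum_w_theta_in (n := n) p 1 {o} (o := o) (by simp)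
  simp only [one_pow, mul_one, card_singleton, Nat.sub_self, pow_zero] at h
  exact h

theorem ins_card (o : Fin n) {t : ℕ} {T : Finset (Fin n)}
    (hT : T ∈ ((univ : Finset (Fin n)).erase o).powersetCard t) :
    (insert o T).card = t + 1 := by
  rw [mem_powersetCard] at hT
  rw [Finset.card_insert_of_notMem, hT.2]
  intro h
  exact Finset.notMem_erase o univ (hT.1 h)

theorem ins_union_card (o : Fin n) {t t' : ℕ} {T T' : Finset (Fin n)}
    (hT : T ∈ ((univ : Finset (Fin n)).erase o).powersetCard t)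
    (hT' : T' ∈ ((univ : Finset (Fin n)).erase o).powersetCard t') :
    (insert o T ∪ insert o T').card - 1 = (T ∪ T').card := by
  rw [mem_powersetCard] at hT hT'
  rw [← Finset.insert_union_distrib, Finset.card_insert_of_notMem, Nat.add_sub_cancel]
  intro h
  rcases mem_union.1 h with h | h
  · exact Finset.notMem_erase o univ (hT.1 h)
  · exact Finset.notMem_erase o univ (hT'.1 h)

/-- The polynomial of the second part. -/
noncomputable def fp (p : ℝ) (o : Fin n) (r : ℕ) : MvPolynomial (Edge n) ℝ :=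
  MvPolynomial.C 2 * gp p (univ.erase o) (insert o) r - gp p (univ.erase o) (insert o) (2 * r)

theorem ev_fp (p : ℝ) (o : Fin n) (r : ℕ) (Y : Gr n) :
    ev (fp p o r) Y = 2 * g p (univ.erase o) (insert o) r Y -
      g p (univ.erase o) (insert o) (2 * r) Y := by
  rw [← ev_gp, ← ev_gp]
  unfold ev fp
  rw [map_sub, map_mul, MvPolynomial.eval_C]

theorem deg_fp (p : ℝ) (o : Fin n) (r : ℕ) : (fp p o r).totalDegree ≤ (2 * r + 2) ^ 2 := by
  unfold fp
  refine (MvPolynomial.totalDegree_sub _ _).trans (max_le ?_ ?_)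
  · refine (MvPolynomial.totalDegree_mul _ _).trans ?_
    rw [MvPolynomial.totalDegree_C, zero_add]
    refine (deg_gp (m := r + 1) fun T hT => ?_).trans (Nat.pow_le_pow_left (by omega) 2)
    rw [ins_card o hT]
  · refine (deg_gp (m := 2 * r + 1) fun T hT => ?_).trans (Nat.pow_le_pow_left (by omega) 2)
    rw [ins_card o hT]

theorem mse_le {p : ℝ} (hp : 0 < p) (hp1 : p ≤ 1) {ρ : ℕ} (hρ : 1 ≤ ρ) (o : Fin n)
    (h : 4 * ρ + 1 ≤ n) {ε z : ℝ} (hε : ε = (1 / 2) ^ ρ / p)
    (hz : z = ((2 * ρ : ℕ) : ℝ) * ((2 * ρ : ℕ) : ℝ) * (1 / p - 1) / ((n - 1 : ℕ) : ℝ))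
    (hz1 : z ≤ 1 / 8) (hrε : 4 * ((2 * ρ : ℕ) : ℝ) * ε ≤ 1) :
    EP n p (fun S Y => (ev (fp p o (2 * ρ)) Y - xo o S) ^ 2) ≤
      40 * p * z ^ 2 + (72 * ((2 * ρ : ℕ) : ℝ) + 60) * (1 / 2) ^ ρ := by
  set r : ℕ := 2 * ρ with hr
  set θ : ℝ := (1 / 2) ^ ρ with hθ
  set V : Finset (Fin n) := univ.erase o with hV
  have hcV : V.card = n - 1 := by
    rw [hV, Finset.card_erase_of_mem (mem_univ o), Finset.card_univ, Fintype.card_fin]
  have hθ0 : 0 < θ := by positivity
  have hε0 : 0 ≤ ε := by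
    rw [hε]
    positivity
  have hpε : p * ε = θ := by
    rw [hε]
    field_simp
  have hy : 0 ≤ 1 / p - 1 := by
    rw [sub_nonneg, le_div_iff₀ hp]
    linarith
  have hbp : p + θ = p * (1 + ε) := by
    rw [← hpε]
    ring
  have hz0 : 0 ≤ z := by
    rw [hz]
    positivity
  -- the bounds on the averages
  have hz2 : ((2 * r : ℕ) : ℝ) * ((2 * r : ℕ) : ℝ) * (1 / p - 1) / ((n - 1 : ℕ) : ℝ) = 4 * z := by
    rw [hz]
    push_cast
    ring
  have hz3 : (r : ℝ) * ((2 * r : ℕ) : ℝ) * (1 / p - 1) / ((n - 1 : ℕ) : ℝ) = 2 * z := by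
    rw [hz]
    push_cast
    ring
  have hP11 : Phi (n - 1) r r (1 / p - 1) ≤ 1 + z + 2 * z ^ 2 := by
    have h1 := Phi_le (N := n - 1) (t := r) (t' := r) hy (by omega) (by omega) (by omega)
      (by rw [← hz]; linarith)
    rw [← hz] at h1
    exact h1
  have hP22 : Phi (n - 1) (2 * r) (2 * r) (1 / p - 1) ≤ 1 + 4 * z + 2 * (4 * z) ^ 2 := by
    have h1 := Phi_le (N := n - 1) (t := 2 * r) (t' := 2 * r) hy (by omega) (by omega) (by omega)
      (by rw [hz2]; linarith)
    rw [hz2] at h1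
    exact h1
  have hP12 : 1 + 2 * z ≤ Phi (n - 1) r (2 * r) (1 / p - 1) := by
    have h1 := le_Phi (N := n - 1) (t := r) (t' := 2 * r) hy (by omega)
    rw [hz3] at h1
    exact h1
  -- the means
  have hBin : ∀ t t', r ≤ t → r ≤ t' → ∀ T ∈ V.powersetCard t, ∀ T' ∈ V.powersetCard t',
      B p (xo o) (insert o T) (insert o T') ≤ p * (p * (1 + ε)) ^ (T ∪ T').card := by
    intro t t' ht ht' T hT T' hT'
    have h1 := B_in_le hp.le hp1 (ρ := ρ) (T := insert o T) (T' := insert o T') (o := o)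
      (by rw [ins_card o hT]; omega) (by rw [ins_card o hT']; omega)
      (mem_union_left _ (mem_insert_self o T))
    rw [ins_union_card o hT hT', ← hθ, hbp] at h1
    exact h1
  have hBout : ∀ t t', r ≤ t → r ≤ t' → ∀ T ∈ V.powersetCard t, ∀ T' ∈ V.powersetCard t',
      B p (fun S => 1 - xo o S) (insert o T) (insert o T') ≤
        θ * (p * (1 + ε)) ^ (T ∪ T').card := by
    intro t t' ht ht' T hT T' hT'
    have h1 := B_out_le hp.le hp1 (ρ := ρ) (T := insert o T) (T' := insert o T') (o := o)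
      (by rw [ins_card o hT]; omega) (by rw [ins_card o hT']; omega)
      (mem_union_left _ (mem_insert_self o T))
    rw [ins_union_card o hT hT', ← hθ, hbp] at h1
    exact h1
  have hBge : ∀ t t', ∀ T ∈ V.powersetCard t, ∀ T' ∈ V.powersetCard t',
      p * p ^ (T ∪ T').card ≤ B p (xo o) (insert o T) (insert o T') := by
    intro t t' T hT T' hT'
    have h1 := le_B_in hp.le hp1 (insert o T) (insert o T') (o := o)
      (mem_union_left _ (mem_insert_self o T))
    rw [ins_union_card o hT hT'] at h1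
    exact h1
  have hr1 : r ≤ V.card := by omega
  have hr2 : 2 * r ≤ V.card := by omega
  have A11 := EP_gg_le (a := xo o) (τ := insert o) hp hp.le hε0 hr1 hr1
    (hBin r r le_rfl le_rfl)
  have A22 := EP_gg_le (a := xo o) (τ := insert o) hp hp.le hε0 hr2 hr2
    (hBin (2 * r) (2 * r) (by omega) (by omega))
  have C11 := EP_gg_le (a := fun S => 1 - xo o S) (τ := insert o) hp hθ0.le hε0 hr1 hr1
    (hBout r r le_rfl le_rfl)
  have C22 := EP_gg_le (a := fun S => 1 - xo o S) (τ := insert o) hp hθ0.le hε0 hr2 hr2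
    (hBout (2 * r) (2 * r) (by omega) (by omega))
  have A12 := le_EP_gg (a := xo o) (τ := insert o) hp hr1 hr2 (hBge r (2 * r))
  have A1 := le_EP_g (a := xo o) (τ := insert o) (V := V) (M := p) hp hr1 (fun T hT => by
    have h1 := hBge r r T hT T hT
    rw [Finset.union_self, (mem_powersetCard.1 hT).2] at h1
    exact h1)
  have A2 := EP_g_le (a := xo o) (τ := insert o) (V := V) (M := p) (ε := ε) hp hr2 (fun T hT => by
    have h1 := hBin (2 * r) (2 * r) (by omega) (by omega) T hT T hT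
    rw [Finset.union_self, (mem_powersetCard.1 hT).2] at h1
    exact h1)
  rw [hcV] at A11 A22 C11 C22 A12
  -- the pointwise bound
  have key : EP n p (fun S Y => (ev (fp p o r) Y - xo o S) ^ 2) ≤
      EP n p (fun S Y => 4 * (xo o S * (g p V (insert o) r Y * g p V (insert o) r Y)) +
        xo o S * (g p V (insert o) (2 * r) Y * g p V (insert o) (2 * r) Y) + xo o S +
        (-4) * (xo o S * (g p V (insert o) r Y * g p V (insert o) (2 * r) Y)) +
        (-4) * (xo o S * g p V (insert o) r Y) + 2 * (xo o S * g p V (insert o) (2 * r) Y) +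
        8 * ((1 - xo o S) * (g p V (insert o) r Y * g p V (insert o) r Y)) +
        2 * ((1 - xo o S) * (g p V (insert o) (2 * r) Y * g p V (insert o) (2 * r) Y))) := by
    refine EP_mono hp.le hp1 fun S Y => ?_
    rw [ev_fp, xo_sq]
    have h1 : 0 ≤ 1 - xo o S := by linarith [xo_le o S]
    have h2 := mul_nonneg h1 (sq_nonneg (2 * g p V (insert o) r Y + g p V (insert o) (2 * r) Y))
    nlinarith
  simp only [EP_add, EP_smul, EP_xo] at key
  refine key.trans ?_
  -- the arithmetic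
  set K : ℝ := (1 + ε) ^ (4 * r) with hK
  have hK1 : 1 ≤ K := one_le_pow₀ (by linarith)
  have hK2 : K ≤ 1 + 8 * r * ε := by
    have h1 := one_add_pow_le hε0 (m := 4 * r) (by push_cast; linarith)
    push_cast at h1
    linarith
  have hKr : (1 + ε) ^ (r + r) ≤ K := pow_le_pow_right₀ (by linarith) (by omega)
  have hK2r : (1 + ε) ^ (2 * r) ≤ K := pow_le_pow_right₀ (by linarith) (by omega)
  have hK4r : (1 + ε) ^ (2 * r + 2 * r) = K := by
    rw [hK]
    congr 1
    omega
  set φ11 := Phi (n - 1) r r (1 / p - 1)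
  set φ22 := Phi (n - 1) (2 * r) (2 * r) (1 / p - 1)
  set φ12 := Phi (n - 1) r (2 * r) (1 / p - 1)
  have hφ11 : 0 ≤ φ11 := Phi_nonneg hy
  have hφ22 : 0 ≤ φ22 := Phi_nonneg hy
  rw [hK4r] at A22 C22
  have A11' : p * (1 + ε) ^ (r + r) * φ11 ≤ p * K * φ11 :=
    mul_le_mul_of_nonneg_right (mul_le_mul_of_nonneg_left hKr hp.le) hφ11
  have C11' : θ * (1 + ε) ^ (r + r) * φ11 ≤ θ * K * φ11 :=
    mul_le_mul_of_nonneg_right (mul_le_mul_of_nonneg_left hKr hθ0.le) hφ11
  have A2' : p * (1 + ε) ^ (2 * r) ≤ p * K := mul_le_mul_of_nonneg_left hK2r hp.le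
  have A12' : p * (1 + 2 * z) ≤ p * φ12 := mul_le_mul_of_nonneg_left hP12 hp.le
  have hK3 : K ≤ 3 := by linarith
  have hzz : z ^ 2 ≤ z * (1 / 8) := by nlinarith
  have hK0 : 0 ≤ K := by linarith
  have B1 : 4 * (p * K * φ11) + p * K * φ22 ≤ p * K * (5 + 8 * z + 40 * z ^ 2) := by
    have h1 : 0 ≤ p * K := by positivity
    nlinarith
  have B2 : 8 * (θ * K * φ11) + 2 * (θ * K * φ22) ≤ θ * 3 * 20 := by
    have h1 : 8 * φ11 + 2 * φ22 ≤ 20 := by nlinarith
    have h2 : 0 ≤ 8 * φ11 + 2 * φ22 := by positivity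
    have h3 : K * (8 * φ11 + 2 * φ22) ≤ 3 * 20 := mul_le_mul hK3 h1 h2 (by norm_num)
    nlinarith
  have B3 : p * (K - 1) ≤ 8 * r * θ := by
    have h1 : p * (K - 1) ≤ p * (8 * r * ε) := mul_le_mul_of_nonneg_left (by linarith) hp.le
    have h2 : p * (8 * r * ε) = 8 * r * (p * ε) := by ring
    rw [h2, hpε] at h1
    exact h1
  have B4 : p * K * (5 + 8 * z + 40 * z ^ 2) + p - 4 * (p * (1 + 2 * z)) - 4 * p + 2 * (p * K) ≤
      40 * p * z ^ 2 + 9 * (p * (K - 1)) := by
    have h1 : 0 ≤ p * (K - 1) := mul_nonneg hp.le (by linarith)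
    have h2 : p * K * (5 + 8 * z + 40 * z ^ 2) + p - 4 * (p * (1 + 2 * z)) - 4 * p +
        2 * (p * K) = 40 * p * z ^ 2 + (7 + 8 * z + 40 * z ^ 2) * (p * (K - 1)) := by ring
    rw [h2]
    have h3 : 7 + 8 * z + 40 * z ^ 2 ≤ 9 := by nlinarith
    have h4 := mul_le_mul_of_nonneg_right h3 h1
    linarith
  nlinarith

end Pool.Agent.Q227.PC
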