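import Pool.Agent.Q227.PC.Mom

/-!
# The polynomials
-/

set_option autoImplicit false

namespace Pool.Agent.Q227.PC

open Finset

variable {n : ℕ}

/-- The clique polynomial. -/
noncomputable def cl (T : Finset (Fin n)) : MvPolynomial (Edge n) ℝ := ∏ e ∈ E T, MvPolynomial.X e

theorem ev_cl (T : Finset (Fin n)) (Y : Gr n) : ev (cl T) Y = I (E T) Y := by
  unfold ev cl I
  rw [map_prod]
  simp only [MvPolynomial.eval_X]
  rw [Finset.prod_boole]
  congr

theorem card_E_le (T : Finset (Fin n)) : (E T).card ≤ (T.card + 1) ^ 2 := by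
  have h1 : (E T).card ≤ T.sym2.card := by
    refine Finset.card_le_card_of_injOn (fun e => e.1) ?_ ?_
    · intro e he
      have he' := mem_E.1 (Finset.mem_coe.1 he)
      exact Finset.mem_coe.2 (Finset.mem_sym2_iff.2 he')
    · intro e _ e' _ h
      exact Subtype.ext h
  rw [Finset.card_sym2] at h1
  exact h1.trans (Nat.choose_le_pow _ _)

theorem deg_cl (T : Finset (Fin n)) : (cl T).totalDegree ≤ (T.card + 1) ^ 2 := by
  refine le_trans ?_ (card_E_le T)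
  unfold cl
  refine (MvPolynomial.totalDegree_finsetProd _ _).trans ?_
  refine (Finset.sum_le_card_nsmul _ _ 1 fun e _ => ?_).trans (by simp)
  exact (MvPolynomial.totalDegree_X e).le

/-- The normalised sum of clique polynomials. -/
noncomputable def gp (p : ℝ) (V : Finset (Fin n)) (τ : Finset (Fin n) → Finset (Fin n)) (t : ℕ) :
    MvPolynomial (Edge n) ℝ :=
  MvPolynomial.C (1 / ((V.card.choose t : ℝ) * p ^ t)) * ∑ T ∈ V.powersetCard t, cl (τ T)

theorem ev_gp (p : ℝ) (V : Finset (Fin n)) (τ : Finset (Fin n) → Finset (Fin n)) (t : ℕ)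
    (Y : Gr n) : ev (gp p V τ t) Y = g p V τ t Y := by
  unfold ev gp g
  rw [map_mul, MvPolynomial.eval_C, map_sum]
  congr 1
  exact Finset.sum_congr rfl fun T _ => ev_cl _ _

theorem deg_gp {p : ℝ} {V : Finset (Fin n)} {τ : Finset (Fin n) → Finset (Fin n)} {t m : ℕ}
    (h : ∀ T ∈ V.powersetCard t, (τ T).card ≤ m) :
    (gp p V τ t).totalDegree ≤ (m + 1) ^ 2 := by
  unfold gp
  refine (MvPolynomial.totalDegree_mul _ _).trans ?_
  rw [MvPolynomial.totalDegree_C, zero_add]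
  refine MvPolynomial.totalDegree_finsetSum_le fun T hT => ?_
  exact (deg_cl _).trans (Nat.pow_le_pow_left (by have := h T hT; omega) 2)

theorem EQ_sq (F : Gr n → ℝ) (c : ℝ) :
    EQ n (fun Y => (F Y - c) ^ 2) = EQ n (fun Y => F Y * F Y) - 2 * c * EQ n F + c ^ 2 := by
  have h1 : (fun Y => (F Y - c) ^ 2) = fun Y => (F Y * F Y + (-(2 * c)) * F Y) + c ^ 2 := by
    funext Y
    ring
  rw [h1, EQ_add, EQ_add, EQ_const, EQ_smul]
  ring

theorem EP_const (p : ℝ) (c : ℝ) : EP n p (fun _ _ => c) = c := by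
  rw [EP_S, ← Finset.sum_mul]
  have h := sum_w_prod (n := n) p (fun _ => 1) (fun _ => 1)
  simp only [Finset.prod_const_one, mul_one] at h
  rw [h]
  simp

theorem EP_sq (p : ℝ) (F : Gr n → ℝ) (c : ℝ) :
    EP n p (fun _ Y => (F Y - c) ^ 2) =
      EP n p (fun _ Y => F Y * F Y) - 2 * c * EP n p (fun _ Y => F Y) + c ^ 2 := by
  have h1 : (fun (_ : Finset (Fin n)) Y => (F Y - c) ^ 2) =
      fun _ Y => (F Y * F Y + (-(2 * c)) * F Y) + c ^ 2 := by
    funext _ Y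
    ring
  rw [h1, EP_add, EP_add, EP_const, EP_smul]
  ring

theorem varQ_le (f : MvPolynomial (Edge n) ℝ) :
    varQ f ≤ EQ n (fun Y => ev f Y * ev f Y) := by
  unfold varQ
  rw [EQ_sq]
  have h : meanQ f = EQ n (ev f) := rfl
  rw [← h]
  nlinarith [sq_nonneg (meanQ f)]

theorem varP_eq (p : ℝ) (f : MvPolynomial (Edge n) ℝ) :
    varP p f = EP n p (fun _ Y => ev f Y * ev f Y) - meanP p f ^ 2 := by
  unfold varP
  rw [EP_sq]
  have h : meanP p f = EP n p (fun _ Y => ev f Y) := rfl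
  rw [← h]
  ring

/-! ### The first part, for fixed `n` -/

theorem card_E_ge {ρ : ℕ} {T : Finset (Fin n)} (hT : 2 * ρ + 1 ≤ T.card) :
    ρ * T.card ≤ (E T).card := by
  have h := edge_bound (S := ∅) hT hT
  rw [Finset.union_self, Finset.union_self, Finset.sdiff_empty] at h
  exact h.trans (Finset.card_le_card sdiff_subset)

theorem card_EE_ge {ρ : ℕ} {T T' : Finset (Fin n)} (hT : 2 * ρ + 1 ≤ T.card)
    (hT' : 2 * ρ + 1 ≤ T'.card) : ρ * (T ∪ T').card ≤ (E T ∪ E T').card := by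
  have h := edge_bound (S := ∅) hT hT'
  rw [Finset.sdiff_empty] at h
  exact h.trans (Finset.card_le_card sdiff_subset)

theorem EQ_g_le {p : ℝ} (hp : 0 < p) {ρ : ℕ} (h : 2 * ρ + 1 ≤ n) :
    EQ n (fun Y => g p univ id (2 * ρ + 1) Y) ≤ ((1 / 2) ^ ρ / p) ^ (2 * ρ + 1) := by
  have hc : (0 : ℝ) < n.choose (2 * ρ + 1) := by exact_mod_cast Nat.choose_pos h
  unfold g
  rw [EQ_smul, EQ_sum, Finset.card_univ, Fintype.card_fin]
  have h1 : ∑ T ∈ (univ : Finset (Fin n)).powersetCard (2 * ρ + 1), EQ n (I (E (id T))) ≤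
      ∑ _T ∈ (univ : Finset (Fin n)).powersetCard (2 * ρ + 1), ((1 / 2 : ℝ) ^ ρ) ^ (2 * ρ + 1) := by
    refine Finset.sum_le_sum fun T hT => ?_
    rw [mem_powersetCard] at hT
    rw [EQ_I, ← pow_mul]
    refine pow_le_pow_of_le_one (by norm_num) (by norm_num) ?_
    have := card_E_ge (T := T) (ρ := ρ) (by omega)
    rw [hT.2] at this
    exact this
  rw [Finset.sum_const, Finset.card_powersetCard, nsmul_eq_mul, Finset.card_univ,
    Fintype.card_fin] at h1
  refine (mul_le_mul_of_nonneg_left h1 (by positivity)).trans (le_of_eq ?_)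
  generalize ((1 : ℝ) / 2) ^ ρ = θ
  rw [div_pow]
  field_simp

theorem EQ_gg_le {p : ℝ} (hp : 0 < p) {ρ : ℕ} (h : 2 * ρ + 1 ≤ n) :
    EQ n (fun Y => g p univ id (2 * ρ + 1) Y * g p univ id (2 * ρ + 1) Y) ≤
      ((1 / 2) ^ ρ / p ^ 2) ^ (2 * ρ + 1) := by
  have hc : (0 : ℝ) < n.choose (2 * ρ + 1) := by exact_mod_cast Nat.choose_pos h
  have h0 : (fun Y : Gr n => g p univ id (2 * ρ + 1) Y * g p univ id (2 * ρ + 1) Y) =
      fun Y => (1 / ((n.choose (2 * ρ + 1) : ℝ) * p ^ (2 * ρ + 1))) ^ 2 *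
        ∑ T ∈ (univ : Finset (Fin n)).powersetCard (2 * ρ + 1),
          ∑ T' ∈ (univ : Finset (Fin n)).powersetCard (2 * ρ + 1), I (E T ∪ E T') Y := by
    funext Y
    unfold g
    rw [Finset.card_univ, Fintype.card_fin]
    have h1 : ∀ c s : ℝ, (c * s) * (c * s) = c ^ 2 * (s * s) := by
      intros
      ring
    rw [h1, Finset.sum_mul_sum]
    simp only [I_mul, id]
  rw [h0, EQ_smul, EQ_sum, Finset.sum_congr rfl fun T _ => EQ_sum _ _]
  have h1 : ∑ T ∈ (univ : Finset (Fin n)).powersetCard (2 * ρ + 1),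
      ∑ T' ∈ (univ : Finset (Fin n)).powersetCard (2 * ρ + 1), EQ n (I (E T ∪ E T')) ≤
      ∑ _T ∈ (univ : Finset (Fin n)).powersetCard (2 * ρ + 1),
      ∑ _T' ∈ (univ : Finset (Fin n)).powersetCard (2 * ρ + 1),
        ((1 / 2 : ℝ) ^ ρ) ^ (2 * ρ + 1) := by
    refine Finset.sum_le_sum fun T hT => Finset.sum_le_sum fun T' hT' => ?_
    rw [mem_powersetCard] at hT hT'
    rw [EQ_I, ← pow_mul]
    refine pow_le_pow_of_le_one (by norm_num) (by norm_num) ?_
    have h2 := card_EE_ge (T := T) (T' := T') (ρ := ρ) (by omega) (by omega)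
    have h3 : 2 * ρ + 1 ≤ (T ∪ T').card := by
      rw [← hT.2]
      exact Finset.card_le_card subset_union_left
    exact (Nat.mul_le_mul_left ρ h3).trans h2
  simp only [Finset.sum_const, Finset.card_powersetCard, nsmul_eq_mul, Finset.card_univ,
    Fintype.card_fin] at h1
  refine (mul_le_mul_of_nonneg_left h1 (by positivity)).trans (le_of_eq ?_)
  generalize ((1 : ℝ) / 2) ^ ρ = θ
  rw [div_pow θ, ← pow_mul p 2, mul_comm 2 (2 * ρ + 1), pow_mul p]
  field_simp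

theorem one_add_pow_le {ε : ℝ} (hε : 0 ≤ ε) {m : ℕ} (h : m * ε ≤ 1) :
    (1 + ε) ^ m ≤ 1 + 2 * (m * ε) := by
  have h1 : (1 + ε) ^ m ≤ Real.exp (m * ε) := by
    rw [Real.exp_nat_mul]
    refine pow_le_pow_left₀ (by linarith) ?_ m
    have := Real.add_one_le_exp ε
    linarith
  have h2 : 0 ≤ (m : ℝ) * ε := by positivity
  have h3 := Real.abs_exp_sub_one_sub_id_le (x := m * ε) (by rw [abs_of_nonneg h2]; exact h)
  have h4 := (abs_le.1 h3).2
  nlinarith

theorem mean_ge {p : ℝ} (hp : 0 < p) (hp1 : p ≤ 1) {ρ : ℕ} (h : 2 * ρ + 1 ≤ n) :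
    1 ≤ meanP p (gp p (univ : Finset (Fin n)) id (2 * ρ + 1)) := by
  have h1 := le_EP_g (a := fun _ => 1) (M := 1) (τ := id) (V := (univ : Finset (Fin n))) hp
    (t := 2 * ρ + 1) (by simpa using h) ?_
  · unfold meanP
    simp only [ev_gp]
    simpa using h1
  · intro T hT
    rw [mem_powersetCard] at hT
    have h2 := le_B_one hp.le hp1 T T
    rw [Finset.union_self, hT.2] at h2
    simpa using h2

theorem var_le {p : ℝ} (hp : 0 < p) (hp1 : p ≤ 1) {ρ : ℕ} (h : 2 * ρ + 1 ≤ n)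
    {ε z : ℝ} (hε : ε = (1 / 2) ^ ρ / p)
    (hz : z = ((2 * ρ + 1 : ℕ) : ℝ) * ((2 * ρ + 1 : ℕ) : ℝ) * (1 / p - 1) / n) (hz1 : z ≤ 1 / 2)
    (hmε : 2 * ((2 * ρ + 1 : ℕ) : ℝ) * ε ≤ 1) :
    varP p (gp p (univ : Finset (Fin n)) id (2 * ρ + 1)) ≤
      8 * ((2 * ρ + 1 : ℕ) : ℝ) * ε + 2 * z := by
  have hε0 : 0 ≤ ε := by
    rw [hε]
    positivity
  have hy : 0 ≤ 1 / p - 1 := by
    rw [sub_nonneg, le_div_iff₀ hp]
    linarith
  have hbp : p + (1 / 2) ^ ρ = p * (1 + ε) := by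
    rw [hε]
    field_simp
  have h1 := EP_gg_le (n := n) (a := fun _ => 1) (M := 1) (τ := id)
    (V := (univ : Finset (Fin n))) hp zero_le_one hε0
    (t := 2 * ρ + 1) (t' := 2 * ρ + 1) (by simpa using h) (by simpa using h) ?_
  · rw [Finset.card_univ, Fintype.card_fin] at h1
    have h2 := Phi_le (N := n) hy (by omega) h h (by rw [← hz]; exact hz1)
    rw [← hz] at h2
    have h3 := one_add_pow_le hε0 (m := 2 * ρ + 1 + (2 * ρ + 1)) (by push_cast at hmε ⊢; linarith)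
    have h4 := mean_ge hp hp1 h
    rw [varP_eq]
    simp only [ev_gp]
    simp only [one_mul] at h1
    have hz0 : 0 ≤ z := by
      rw [hz]
      positivity
    have h5 : (1 + ε) ^ (2 * ρ + 1 + (2 * ρ + 1)) * Phi n (2 * ρ + 1) (2 * ρ + 1) (1 / p - 1) ≤
        (1 + 2 * (((2 * ρ + 1 + (2 * ρ + 1) : ℕ) : ℝ) * ε)) * (1 + z + 2 * z ^ 2) := by
      refine mul_le_mul h3 h2 (Phi_nonneg hy) (by positivity)
    have h6 : (1 + z + 2 * z ^ 2) ≤ 1 + 2 * z := by nlinarith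
    push_cast at h5 hmε ⊢
    have h7 : (1 + 2 * ((2 * (ρ : ℝ) + 1 + (2 * ρ + 1)) * ε)) * (1 + z + 2 * z ^ 2) ≤
        (1 + 2 * ((2 * (ρ : ℝ) + 1 + (2 * ρ + 1)) * ε)) * (1 + 2 * z) :=
      mul_le_mul_of_nonneg_left h6 (by positivity)
    have h8 : 0 ≤ (2 * (ρ : ℝ) + 1) * ε := by positivity
    nlinarith
  · intro T hT T' hT'
    rw [mem_powersetCard] at hT hT'
    rw [one_mul, ← hbp]
    exact B_one_le hp.le hp1 (by simp [hT.2]) (by simp [hT'.2])

end Pool.Agent.Q227.PC
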